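import Pool.Graph.R_pool_sql_team_seeded_3997aac3.Q167.LF.F

/-! # Laws of order three on blocks of pairs, with hardly any complete pair -/

set_option autoImplicit false

namespace Pool.Agent.H198.LI4

open Finset MeasureTheory Filter Q198.CI Q167.WK Q167.LF

/-- the elements of the pairs with upper members in `J` -/
def GG (J : Finset ℕ) : Finset ℕ := J ∪ J.image (fun N => N - 2)

/-- admissible sets of upper members -/
def Adm (J : Finset ℕ) : Prop := ∀ N ∈ J, N % 3 = 1 ∧ 4 ≤ N

/-- weight of the trace on one pair -/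
noncomputable def lw (p γ : ℕ → ℝ) (N : ℕ) (S : Finset ℕ) : ℝ :=
  if N ∈ S then (if N - 2 ∈ S then γ N else p N - γ N)
  else (if N - 2 ∈ S then p (N - 2) - γ N else 1 - p N - p (N - 2) + γ N)

noncomputable def wt (p γ : ℕ → ℝ) (J S : Finset ℕ) : ℝ := ∏ N ∈ J, lw p γ N S

noncomputable def um (p γ : ℕ → ℝ) (N : ℕ) (T : Finset ℕ) : ℝ :=
  if N ∈ T then (if N - 2 ∈ T then γ N else p N) else (if N - 2 ∈ T then p (N - 2) else 1)

lemma mem_GG {J : Finset ℕ} {n : ℕ} : n ∈ GG J ↔ n ∈ J ∨ ∃ N ∈ J, N - 2 = n := by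
  rw [GG, mem_union, mem_image]

lemma GG_insert (J : Finset ℕ) (N : ℕ) : GG (insert N J) = GG J ∪ {N, N - 2} := by
  ext n
  simp only [mem_GG, mem_insert, mem_union, mem_singleton]
  constructor
  · rintro ((h | h) | ⟨M, h | h, h2⟩)
    · exact Or.inr (Or.inl h)
    · exact Or.inl (Or.inl h)
    · subst h
      exact Or.inr (Or.inr h2.symm)
    · exact Or.inl (Or.inr ⟨M, h, h2⟩)
  · rintro ((h | ⟨M, h, h2⟩) | (h | h))
    · exact Or.inl (Or.inr h)
    · exact Or.inr ⟨M, Or.inr h, h2⟩
    · exact Or.inl (Or.inl h)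
    · exact Or.inr ⟨N, Or.inl rfl, h.symm⟩

lemma GG_disj {J : Finset ℕ} {N : ℕ} (hJ : Adm (insert N J)) (hN : N ∉ J) :
    Disjoint (GG J) {N, N - 2} := by
  rw [disjoint_left]
  intro n hn h
  rw [mem_GG] at hn
  rw [mem_insert, mem_singleton] at h
  have hN1 := hJ N (mem_insert_self _ _)
  rcases hn with hn | ⟨M, hM, hn⟩
  · have h1 := hJ n (mem_insert_of_mem hn)
    rcases h with h | h
    · exact hN (h ▸ hn)
    · omega
  · have h1 := hJ M (mem_insert_of_mem hM)
    rcases h with h | h
    · omega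
    · have : M = N := by omega
      exact hN (this ▸ hM)

lemma lw_congr (p γ : ℕ → ℝ) (N : ℕ) {S S' : Finset ℕ} (h1 : N ∈ S ↔ N ∈ S')
    (h2 : N - 2 ∈ S ↔ N - 2 ∈ S') : lw p γ N S = lw p γ N S' := by
  unfold lw
  by_cases a : N ∈ S <;> by_cases b : N - 2 ∈ S
  · rw [if_pos a, if_pos b, if_pos (h1.1 a), if_pos (h2.1 b)]
  · rw [if_pos a, if_neg b, if_pos (h1.1 a), if_neg (fun h => b (h2.2 h))]
  · rw [if_neg a, if_pos b, if_neg (fun h => a (h1.2 h)), if_pos (h2.1 b)]
  · rw [if_neg a, if_neg b, if_neg (fun h => a (h1.2 h)), if_neg (fun h => b (h2.2 h))]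

lemma um_congr (p γ : ℕ → ℝ) (N : ℕ) {S S' : Finset ℕ} (h1 : N ∈ S ↔ N ∈ S')
    (h2 : N - 2 ∈ S ↔ N - 2 ∈ S') : um p γ N S = um p γ N S' := by
  unfold um
  by_cases a : N ∈ S <;> by_cases b : N - 2 ∈ S
  · rw [if_pos a, if_pos b, if_pos (h1.1 a), if_pos (h2.1 b)]
  · rw [if_pos a, if_neg b, if_pos (h1.1 a), if_neg (fun h => b (h2.2 h))]
  · rw [if_neg a, if_pos b, if_neg (fun h => a (h1.2 h)), if_pos (h2.1 b)]
  · rw [if_neg a, if_neg b, if_neg (fun h => a (h1.2 h)), if_neg (fun h => b (h2.2 h))]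

/-- one pair -/
lemma one_pair (p γ : ℕ → ℝ) {N : ℕ} (hN : 4 ≤ N) {T : Finset ℕ} (hT : T ⊆ {N, N - 2}) :
    ∑ S ∈ Icc T {N, N - 2}, lw p γ N S = um p γ N T := by
  classical
  have hne : N ≠ N - 2 := by omega
  have hne' : N - 2 ≠ N := by omega
  rw [sum_Icc_eq hT]
  by_cases a : N ∈ T <;> by_cases b : N - 2 ∈ T
  · have e : ({N, N - 2} : Finset ℕ) \ T = ∅ := by
      rw [sdiff_eq_empty_iff_subset]
      intro n hn
      rw [mem_insert, mem_singleton] at hn
      rcases hn with rfl | rfl
      · exact a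
      · exact b
    rw [e, powerset_empty, sum_singleton, union_empty]
    unfold lw um
    rw [if_pos a, if_pos b, if_pos a, if_pos b]
  · have e : ({N, N - 2} : Finset ℕ) \ T = {N - 2} := by
      ext n
      rw [Finset.mem_sdiff, mem_insert, mem_singleton]
      constructor
      · rintro ⟨h | h, h2⟩
        · exact absurd (h ▸ a) h2
        · exact h
      · rintro rfl
        exact ⟨Or.inr rfl, b⟩
    rw [e, ← insert_empty_eq, sum_powerset_insert (notMem_empty _), powerset_empty, sum_singleton,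
      sum_singleton, union_empty, insert_empty_eq]
    have h1 : N ∈ T ∪ {N - 2} := mem_union_left _ a
    have h2 : N - 2 ∈ T ∪ {N - 2} := mem_union_right _ (mem_singleton_self _)
    unfold lw um
    rw [if_pos a, if_neg b, if_pos h1, if_pos h2, if_pos a, if_neg b]
    ring
  · have e : ({N, N - 2} : Finset ℕ) \ T = {N} := by
      ext n
      rw [Finset.mem_sdiff, mem_insert, mem_singleton, mem_singleton]
      constructor
      · rintro ⟨h | h, h2⟩
        · exact h
        · exact absurd (h ▸ b) h2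
      · rintro rfl
        exact ⟨Or.inl rfl, a⟩
    rw [e, ← insert_empty_eq, sum_powerset_insert (notMem_empty _), powerset_empty, sum_singleton,
      sum_singleton, union_empty, insert_empty_eq]
    have h1 : N ∈ T ∪ {N} := mem_union_right _ (mem_singleton_self _)
    have h2 : N - 2 ∈ T ∪ {N} := mem_union_left _ b
    unfold lw um
    rw [if_neg a, if_pos b, if_pos h1, if_pos h2, if_neg a, if_pos b]
    ring
  · have e : T = ∅ := by
      rw [eq_empty_iff_forall_notMem]
      intro n hn
      have := hT hn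
      rw [mem_insert, mem_singleton] at this
      rcases this with h | h
      · exact a (h ▸ hn)
      · exact b (h ▸ hn)
    subst e
    rw [sdiff_empty, sum_powerset_insert (by rw [mem_singleton]; exact hne), ← insert_empty_eq (N - 2),
      sum_powerset_insert (notMem_empty _), sum_powerset_insert (notMem_empty _), powerset_empty,
      sum_singleton, sum_singleton, sum_singleton, sum_singleton]
    simp only [empty_union, insert_empty_eq]
    unfold lw um
    rw [if_neg (notMem_empty _), if_neg (notMem_empty _), if_neg (notMem_empty _),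
      if_neg (notMem_empty _), if_neg (by rw [mem_singleton]; exact hne),
      if_pos (mem_singleton_self _), if_pos (mem_singleton_self _),
      if_neg (by rw [mem_singleton]; exact hne'), if_pos (mem_insert_self _ _),
      if_pos (by rw [mem_insert, mem_singleton]; exact Or.inr rfl)]
    ring

/-- the sums of the product weights -/
lemma sum_wt (p γ : ℕ → ℝ) : ∀ J : Finset ℕ, Adm J → ∀ T ⊆ GG J,
    ∑ S ∈ Icc T (GG J), wt p γ J S = ∏ N ∈ J, um p γ N T := by
  classical
  intro J
  induction J using Finset.induction_on with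
  | empty =>
    intro _ T hT
    have e : GG ∅ = ∅ := by simp [GG]
    rw [e] at hT ⊢
    rw [subset_empty] at hT
    subst hT
    simp [wt]
  | insert N J hN ih =>
    intro hJ T hT
    have hJ' : Adm J := fun M hM => hJ M (mem_insert_of_mem hM)
    have hN4 := (hJ N (mem_insert_self _ _)).2
    have hd := GG_disj hJ hN
    have hTe : T = (T ∩ GG J) ∪ (T ∩ {N, N - 2}) := by
      rw [← inter_union_distrib_left, ← GG_insert]
      exact (inter_eq_left.2 hT).symm
    have h1 : ∀ S : Finset ℕ, wt p γ (insert N J) S =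
        (fun S₁ S₂ => lw p γ N S₂ * wt p γ J S₁) (S ∩ GG J) (S ∩ {N, N - 2}) := by
      intro S
      simp only [wt]
      rw [prod_insert hN]
      congr 1
      · apply lw_congr
        · rw [mem_inter]
          exact ⟨fun h => ⟨h, mem_insert_self _ _⟩, fun h => h.1⟩
        · rw [mem_inter]
          exact ⟨fun h => ⟨h, mem_insert_of_mem (mem_singleton_self _)⟩, fun h => h.1⟩
      · refine prod_congr rfl fun M hM => lw_congr _ _ _ ?_ ?_
        · rw [mem_inter, mem_GG]
          exact ⟨fun h => ⟨h, Or.inl hM⟩, fun h => h.1⟩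
        · rw [mem_inter, mem_GG]
          exact ⟨fun h => ⟨h, Or.inr ⟨M, hM, rfl⟩⟩, fun h => h.1⟩
    have h2 : ∑ S ∈ Icc T (GG (insert N J)), wt p γ (insert N J) S =
        ∑ S ∈ Icc ((T ∩ GG J) ∪ (T ∩ {N, N - 2})) (GG J ∪ {N, N - 2}),
          (fun S₁ S₂ => lw p γ N S₂ * wt p γ J S₁) (S ∩ GG J) (S ∩ {N, N - 2}) := by
      rw [← hTe, ← GG_insert]
      exact sum_congr rfl fun S _ => h1 S
    rw [h2]
    refine (sum_Icc_union hd inter_subset_right inter_subset_right
      (fun S₁ S₂ => lw p γ N S₂ * wt p γ J S₁)).trans ?_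
    have h3 : ∀ S₁ ∈ Icc (T ∩ GG J) (GG J), ∑ S₂ ∈ Icc (T ∩ {N, N - 2}) {N, N - 2},
        lw p γ N S₂ * wt p γ J S₁ = um p γ N T * wt p γ J S₁ := by
      intro S₁ _
      rw [← sum_mul, one_pair p γ hN4 inter_subset_right]
      congr 1
      apply um_congr
      · rw [mem_inter]
        exact ⟨fun h => h.1, fun h => ⟨h, mem_insert_self _ _⟩⟩
      · rw [mem_inter]
        exact ⟨fun h => h.1, fun h => ⟨h, mem_insert_of_mem (mem_singleton_self _)⟩⟩
    rw [sum_congr rfl h3, ← mul_sum, ih hJ' _ inter_subset_right, prod_insert hN]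
    congr 1
    refine prod_congr rfl fun M hM => um_congr _ _ _ ?_ ?_
    · rw [mem_inter, mem_GG]
      exact ⟨fun h => h.1, fun h => ⟨h, Or.inl hM⟩⟩
    · rw [mem_inter, mem_GG]
      exact ⟨fun h => h.1, fun h => ⟨h, Or.inr ⟨M, hM, rfl⟩⟩⟩

/-- the product of the probabilities, by pairs -/
lemma prod_pairs (p : ℕ → ℝ) {J T : Finset ℕ} (hJ : Adm J) (hT : T ⊆ GG J) :
    ∏ n ∈ T, p n = ∏ N ∈ J, ((if N ∈ T then p N else 1) * (if N - 2 ∈ T then p (N - 2) else 1)) := by
  classical
  have h1 : ∏ n ∈ T, p n = ∏ n ∈ GG J, (if n ∈ T then p n else 1) := by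
    rw [prod_ite, prod_const_one, mul_one]
    refine prod_congr ?_ fun _ _ => rfl
    ext n
    rw [mem_filter]
    exact ⟨fun h => ⟨hT h, h⟩, fun h => h.2⟩
  have hd : Disjoint J (J.image (fun N => N - 2)) := by
    rw [disjoint_left]
    intro n hn h
    rw [mem_image] at h
    obtain ⟨M, hM, h2⟩ := h
    have h3 := hJ n hn
    have h4 := hJ M hM
    omega
  rw [h1, GG, prod_union hd, prod_image (fun a ha b hb hab => by
    have h3 := hJ a ha
    have h4 := hJ b hb
    have hab' : a - 2 = b - 2 := hab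
    omega), ← prod_mul_distrib]

/-- **The block law.** -/
theorem block_law {p : ℕ → ℝ} {J : Finset ℕ} (hJ : Adm J) {η : ℝ} (hη : 0 < η) (hη1 : η ≤ 1)
    (hp : ∀ n ∈ GG J, 0 ≤ p n ∧ p n ≤ η ∧ p n ≤ 1 / 2) :
    ∃ w : Finset ℕ → ℝ, IsLaw (GG J) 3 p w ∧
      ∑ S ∈ (GG J).powerset with (∃ N ∈ J, N ∈ S ∧ N - 2 ∈ S), w S ≤ η := by
  classical
  set γ : ℕ → ℝ := fun N => p N * p (N - 2) / η with hγ
  have hup : ∀ N ∈ J, 0 ≤ p N ∧ p N ≤ η ∧ p N ≤ 1 / 2 := fun N hN => hp N (mem_GG.2 (Or.inl hN))
  have hlo : ∀ N ∈ J, 0 ≤ p (N - 2) ∧ p (N - 2) ≤ η ∧ p (N - 2) ≤ 1 / 2 :=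
    fun N hN => hp _ (mem_GG.2 (Or.inr ⟨N, hN, rfl⟩))
  have hγ0 : ∀ N ∈ J, 0 ≤ γ N := fun N hN =>
    div_nonneg (mul_nonneg (hup N hN).1 (hlo N hN).1) hη.le
  have hγ1 : ∀ N ∈ J, γ N ≤ p N := by
    intro N hN
    simp only [hγ]
    rw [div_le_iff₀ hη]
    exact mul_le_mul_of_nonneg_left (hlo N hN).2.1 (hup N hN).1
  have hγ2 : ∀ N ∈ J, γ N ≤ p (N - 2) := by
    intro N hN
    simp only [hγ]
    rw [div_le_iff₀ hη, mul_comm]
    exact mul_le_mul_of_nonneg_left (hup N hN).2.1 (hlo N hN).1
  have hnn : ∀ S, 0 ≤ wt p γ J S := by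
    intro S
    refine prod_nonneg fun N hN => ?_
    have a1 := hup N hN
    have a2 := hlo N hN
    have a3 := hγ0 N hN
    have a4 := hγ1 N hN
    have a5 := hγ2 N hN
    unfold lw
    split_ifs <;> linarith
  have hnn0 : ∀ S, 0 ≤ wt p (fun _ => 0) J S := by
    intro S
    refine prod_nonneg fun N hN => ?_
    have a1 := hup N hN
    have a2 := hlo N hN
    unfold lw
    split_ifs <;> linarith
  refine ⟨fun S => (1 - η) * wt p (fun _ => 0) J S + η * wt p γ J S, ⟨?_, ?_⟩, ?_⟩
  · intro S _
    have := hnn S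
    have := hnn0 S
    have : 0 ≤ 1 - η := by linarith
    positivity
  · intro T hT hT3
    rw [sum_add_distrib, ← mul_sum, ← mul_sum, sum_wt p _ J hJ T hT, sum_wt p _ J hJ T hT,
      prod_pairs p hJ hT]
    by_cases hex : ∃ N ∈ J, N ∈ T ∧ N - 2 ∈ T
    · obtain ⟨N, hN, h1, h2⟩ := hex
      have hrest : ∀ (g : ℕ → ℝ), ∀ M ∈ J.erase N, um p g M T =
          (if M ∈ T then p M else 1) * (if M - 2 ∈ T then p (M - 2) else 1) := by
        intro g M hM
        rw [mem_erase] at hM
        have hnot : ¬ (M ∈ T ∧ M - 2 ∈ T) := by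
          rintro ⟨h3, h4⟩
          have b1 := hJ N hN
          have b2 := hJ M hM.2
          have hsub : ({N, N - 2, M, M - 2} : Finset ℕ) ⊆ T := by
            intro n hn
            simp only [mem_insert, mem_singleton] at hn
            rcases hn with rfl | rfl | rfl | rfl
            · exact h1
            · exact h2
            · exact h3
            · exact h4
          have hc : ({N, N - 2, M, M - 2} : Finset ℕ).card = 4 := by
            have hMN := hM.1
            rw [card_insert_of_notMem, card_insert_of_notMem, card_insert_of_notMem, card_singleton]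
            · rw [mem_singleton]
              omega
            · simp only [mem_insert, mem_singleton]
              omega
            · simp only [mem_insert, mem_singleton]
              omega
          have := card_le_card hsub
          omega
        unfold um
        by_cases a : M ∈ T
        · have b : M - 2 ∉ T := fun b => hnot ⟨a, b⟩
          simp only [if_pos a, if_neg b, mul_one]
        · by_cases b : M - 2 ∈ T
          · simp only [if_neg a, if_pos b, one_mul]
          · simp only [if_neg a, if_neg b, one_mul]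
      rw [← mul_prod_erase J _ hN, ← mul_prod_erase J (fun M => um p γ M T) hN,
        ← mul_prod_erase J (fun M => (if M ∈ T then p M else 1) *
          (if M - 2 ∈ T then p (M - 2) else 1)) hN,
        prod_congr rfl (hrest _), prod_congr rfl (hrest _)]
      have e1 : um p (fun _ => 0) N T = 0 := by
        unfold um
        rw [if_pos h1, if_pos h2]
      have e2 : um p γ N T = γ N := by
        unfold um
        rw [if_pos h1, if_pos h2]
      rw [e1, e2, if_pos h1, if_pos h2]
      simp only [hγ]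
      field_simp
      ring
    · have hrest : ∀ (g : ℕ → ℝ), ∀ M ∈ J, um p g M T =
          (if M ∈ T then p M else 1) * (if M - 2 ∈ T then p (M - 2) else 1) := by
        intro g M hM
        unfold um
        by_cases a : M ∈ T
        · have b : M - 2 ∉ T := fun b => hex ⟨M, hM, a, b⟩
          simp only [if_pos a, if_neg b, mul_one]
        · by_cases b : M - 2 ∈ T
          · simp only [if_neg a, if_pos b, one_mul]
          · simp only [if_neg a, if_neg b, one_mul]
      rw [prod_congr rfl (hrest _), prod_congr rfl (hrest _)]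
      ring
  · have h1 : ∀ S ∈ (GG J).powerset.filter (fun S => ∃ N ∈ J, N ∈ S ∧ N - 2 ∈ S),
        (1 - η) * wt p (fun _ => 0) J S + η * wt p γ J S ≤ η * wt p γ J S := by
      intro S hS
      rw [mem_filter] at hS
      obtain ⟨N, hN, h2, h3⟩ := hS.2
      have h4 : wt p (fun _ => 0) J S = 0 := by
        refine prod_eq_zero hN ?_
        unfold lw
        rw [if_pos h2, if_pos h3]
      rw [h4]
      linarith
    refine (sum_le_sum h1).trans ?_
    rw [← mul_sum]
    have h2 : ∑ S ∈ (GG J).powerset with (∃ N ∈ J, N ∈ S ∧ N - 2 ∈ S), wt p γ J S ≤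
        ∑ S ∈ (GG J).powerset, wt p γ J S :=
      sum_le_sum_of_subset_of_nonneg (filter_subset _ _) fun S _ _ => hnn S
    have h3 : ∑ S ∈ (GG J).powerset, wt p γ J S = 1 := by
      have h4 := sum_wt p γ J hJ ∅ (empty_subset _)
      have h5 : ∏ N ∈ J, um p γ N ∅ = 1 := by
        refine prod_eq_one fun N _ => ?_
        unfold um
        rw [if_neg (notMem_empty _), if_neg (notMem_empty _)]
      rw [h5] at h4
      rw [← h4]
      refine sum_congr ?_ fun _ _ => rfl
      ext S
      simp
    rw [h3] at h2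
    calc _ ≤ η * 1 := mul_le_mul_of_nonneg_left h2 hη.le
      _ = η := mul_one _

end Pool.Agent.H198.LI4
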