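import Pool.Agent.H198.LI4.A

/-! # A random set of order three with finitely many pairs -/

set_option autoImplicit false

namespace Pool.Agent.H198.LI4

open Finset MeasureTheory Filter Q198.CI Q167.WK Q167.LF
open scoped Topology

lemma part_le {I : Finset ℕ} {K : ℕ} {p : ℕ → ℝ} {w : Finset ℕ → ℝ} (h : IsLaw I K p w)
    (Q : Finset ℕ → Prop) [DecidablePred Q] : ∑ S ∈ I.powerset with Q S, w S ≤ 1 :=
  (sum_le_sum_of_subset_of_nonneg (filter_subset _ _) fun S hS _ =>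
    h.1 S (mem_powerset.1 hS)).trans (le_of_eq (law_total h))

/-- bad events of summable probabilities on disjoint blocks -/
theorem scales' {p : ℕ → ℝ} (hp : ∀ n, 0 ≤ p n) (hp1 : ∀ n, p n ≤ 1) {G : ℕ → Finset ℕ}
    (hG : ∀ i i' n, n ∈ G i → n ∈ G i' → i = i') {Bad : ℕ → Finset ℕ → Prop}
    [∀ i, DecidablePred (Bad i)] {e : ℕ → ℝ} (he : Summable e)
    (hlaw : ∀ i, ∃ v : Finset ℕ → ℝ, IsLaw (G i) 3 p v ∧
      ∑ S ∈ (G i).powerset with Bad i S, v S ≤ e i) :
    ∃ (Ω : Type) (_ : MeasurableSpace Ω) (P : Measure Ω) (_ : IsProbabilityMeasure P)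
      (A : Ω → Set ℕ), LimModel P p 3 A ∧
      ∀ᵐ ω ∂P, ∀ᶠ i in atTop, ∃ S : Finset ℕ, ¬ Bad i S ∧ ∀ n ∈ G i, n ∈ A ω → n ∈ S := by
  classical
  set b : ℕ → ℕ ⊕ ℕ := fun n => if h : ∃ i, n ∈ G i then Sum.inl h.choose else Sum.inr n with hb
  set I : ℕ ⊕ ℕ → Finset ℕ := fun β => match β with
    | Sum.inl i => G i
    | Sum.inr n => if ∃ i, n ∈ G i then ∅ else {n} with hI
  have hbG : ∀ i, ∀ n ∈ G i, b n = Sum.inl i := by
    intro i n hn
    have hex : ∃ i, n ∈ G i := ⟨i, hn⟩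
    simp only [hb]
    rw [dif_pos hex]
    exact congrArg Sum.inl (hG _ _ n hex.choose_spec hn)
  have hbI : ∀ n β, n ∈ I β ↔ b n = β := by
    intro n β
    rcases β with i | n'
    · simp only [hI]
      constructor
      · exact hbG i n
      · intro h
        simp only [hb] at h
        split_ifs at h with h1
        have h2 := h1.choose_spec
        rw [Sum.inl_injective h] at h2
        exact h2
    · simp only [hI, hb]
      constructor
      · intro h
        split_ifs at h with h1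
        · simp at h
        · rw [mem_singleton] at h
          subst h
          rw [dif_neg h1]
      · intro h
        split_ifs at h with h1
        have h3 : n = n' := Sum.inr_injective h
        subst h3
        rw [if_neg h1, mem_singleton]
  have hex : ∀ β, ∃ w : Finset ℕ → ℝ, IsLaw (I β) 3 p w ∧
      ∀ i, β = Sum.inl i → ∑ S ∈ (G i).powerset with Bad i S, w S ≤ e i := by
    intro β
    rcases β with i | n
    · obtain ⟨v, h1, h2⟩ := hlaw i
      refine ⟨v, h1, fun i' h => ?_⟩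
      rw [← Sum.inl_injective h]
      exact h2
    · refine ⟨_, law_prod _ hp hp1 _, fun i h => ?_⟩
      cases h
  choose w hw1 hw2 using hex
  obtain ⟨P, hP, A, hA, hAb, hbox⟩ := glue2 b I hbI 3 hp w hw1
  refine ⟨_, inferInstance, P, hP, A, hA, ?_⟩
  set C : ℕ ⊕ ℕ → Finset ℕ → Prop := fun β S => match β with
    | Sum.inl i => S ⊆ G i ∧ Bad i S
    | Sum.inr _ => False with hC
  have hS : ∀ i, P.real {ω | ∀ β ∈ ({Sum.inl i} : Finset (ℕ ⊕ ℕ)), C β (ω β)} ≤ e i := by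
    intro i
    rw [(hbox _ C).2, prod_singleton, bm_real (hw1 (Sum.inl i))]
    refine le_trans (le_of_eq ?_) (hw2 (Sum.inl i) i rfl)
    refine sum_congr ?_ fun _ _ => rfl
    ext S
    simp only [hI, hC, mem_filter, mem_powerset]
    exact ⟨fun h => ⟨h.1, h.2.2⟩, fun h => ⟨h.1, h.1, h.2⟩⟩
  -- the traces are subsets of the blocks
  have hsub : ∀ i, ∀ᵐ ω ∂P, ω (Sum.inl i) ⊆ G i := by
    intro i
    set C' : ℕ ⊕ ℕ → Finset ℕ → Prop := fun β S => match β with
      | Sum.inl i => ¬ S ⊆ G i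
      | Sum.inr _ => True with hC'
    have h1 : P.real {ω | ∀ β ∈ ({Sum.inl i} : Finset (ℕ ⊕ ℕ)), C' β (ω β)} = 0 := by
      rw [(hbox _ C').2, prod_singleton, bm_real (hw1 (Sum.inl i))]
      refine sum_eq_zero fun S hS => ?_
      simp only [hI, hC', mem_filter, mem_powerset] at hS
      exact absurd hS.1 hS.2
    rw [measureReal_eq_zero_iff] at h1
    rw [ae_iff]
    refine measure_mono_null ?_ h1
    intro ω hω β hβ
    rw [mem_singleton] at hβ
    subst hβ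
    exact hω
  have hsum : ∑' i, P {ω : ℕ ⊕ ℕ → Finset ℕ |
      ∀ β ∈ ({Sum.inl i} : Finset (ℕ ⊕ ℕ)), C β (ω β)} ≠ ⊤ := by
    refine ne_top_of_le_ne_top he.tsum_ofReal_ne_top (ENNReal.tsum_le_tsum fun i => ?_)
    rw [← ENNReal.ofReal_toReal (measure_ne_top P _)]
    exact ENNReal.ofReal_le_ofReal (hS i)
  filter_upwards [ae_eventually_notMem hsum, ae_all_iff.2 hsub] with ω h1 h2
  filter_upwards [h1] with i h3
  refine ⟨ω (Sum.inl i), fun h4 => h3 ?_, fun n hn hn' => ?_⟩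
  · intro β hβ
    rw [mem_singleton] at hβ
    subst hβ
    exact ⟨h2 i, h4⟩
  · rw [hAb, hbG i n hn] at hn'
    exact hn'

/-- the upper members of the `i`-th block -/
def JJ (i : ℕ) : Finset ℕ := (Ico (2 ^ i ^ 2) (2 ^ (i + 1) ^ 2)).filter (fun N => N % 3 = 1 ∧ 4 ≤ N)

lemma JJ_adm (i : ℕ) : Adm (JJ i) := fun _ hN => (mem_filter.1 hN).2

lemma JJ_cover {N : ℕ} (h : N % 3 = 1) (h4 : 4 ≤ N) : N ∈ JJ (Nat.sqrt (Nat.log 2 N)) := by
  have h0 : N ≠ 0 := by omega
  rw [JJ, mem_filter, mem_Ico]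
  refine ⟨⟨?_, ?_⟩, h, h4⟩
  · refine le_trans (Nat.pow_le_pow_right (by norm_num) ?_) (Nat.pow_log_le_self 2 h0)
    exact Nat.sqrt_le' _
  · refine lt_of_lt_of_le (Nat.lt_pow_succ_log_self (by norm_num) N)
      (Nat.pow_le_pow_right (by norm_num) ?_)
    exact Nat.lt_succ_sqrt' _

lemma JJ_disj {i i' n : ℕ} (h : n ∈ JJ i) (h' : n ∈ JJ i') : i = i' := by
  rw [JJ, mem_filter, mem_Ico] at h h'
  by_contra hne
  rcases Nat.lt_or_gt_of_ne hne with h1 | h1
  · have h2 : 2 ^ (i + 1) ^ 2 ≤ 2 ^ i' ^ 2 :=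
      Nat.pow_le_pow_right (by norm_num) (Nat.pow_le_pow_left h1 2)
    omega
  · have h2 : 2 ^ (i' + 1) ^ 2 ≤ 2 ^ i ^ 2 :=
      Nat.pow_le_pow_right (by norm_num) (Nat.pow_le_pow_left h1 2)
    omega

lemma GG_JJ_disj {i i' n : ℕ} (h : n ∈ GG (JJ i)) (h' : n ∈ GG (JJ i')) : i = i' := by
  rw [mem_GG] at h h'
  rcases h with h | ⟨M, h, h2⟩ <;> rcases h' with h' | ⟨M', h', h2'⟩
  · exact JJ_disj h h'
  · have a1 := JJ_adm _ _ h
    have a2 := JJ_adm _ _ h'
    omega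
  · have a1 := JJ_adm _ _ h
    have a2 := JJ_adm _ _ h'
    omega
  · have a1 := JJ_adm _ _ h
    have a2 := JJ_adm _ _ h'
    have : M = M' := by omega
    subst this
    exact JJ_disj h h'

lemma GG_JJ_ge {i n : ℕ} (h : n ∈ GG (JJ i)) : 2 ^ i ^ 2 ≤ n + 2 := by
  rw [mem_GG] at h
  rcases h with h | ⟨M, h, h2⟩
  · rw [JJ, mem_filter, mem_Ico] at h
    omega
  · rw [JJ, mem_filter, mem_Ico] at h
    omega

/-- **Order three is not enough**: almost surely there are only finitely many pairs. -/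
theorem order_three {p : ℕ → ℝ} (hp : ∀ n, 0 ≤ p n) (hp1 : ∀ n, p n ≤ 1)
    (hp3 : ∀ n, 3 ∣ n → p n = 0) {C : ℝ} (hpC : ∀ᶠ N : ℕ in atTop, p N ≤ C / Real.log N) :
    ∃ (Ω : Type) (_ : MeasurableSpace Ω) (P : Measure Ω) (_ : IsProbabilityMeasure P)
      (A : Ω → Set ℕ), LimModel P p 3 A ∧
      ∀ᵐ ω ∂P, {N : ℕ | 2 ≤ N ∧ N ∈ A ω ∧ N - 2 ∈ A ω}.Finite := by
  classical
  obtain ⟨N₀, hN₀⟩ := eventually_atTop.1 hpC
  set K : ℝ := 4 * (|C| + 1) / Real.log 2 with hK
  have hl2 : 0 < Real.log 2 := Real.log_pos (by norm_num)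
  have hC0 := abs_nonneg C
  have hK0 : 0 < K := by positivity
  -- the bound on late blocks
  obtain ⟨i₀, hi₀⟩ : ∃ i₀ : ℕ, N₀ + 4 ≤ i₀ ∧ 2 * K ≤ i₀ := by
    obtain ⟨k, hk⟩ := exists_nat_ge (2 * K)
    exact ⟨N₀ + 4 + k, by omega, hk.trans (by push_cast; linarith [Nat.cast_nonneg (α := ℝ) N₀])⟩
  have hbound : ∀ i, i₀ ≤ i → ∀ n ∈ GG (JJ i), p n ≤ K / (i : ℝ) ^ 2 := by
    intro i hi n hn
    have h1 := GG_JJ_ge hn
    have hi4 : 4 ≤ i := by omega
    have hiR : (4 : ℝ) ≤ i := by exact_mod_cast hi4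
    have h2 : 2 ^ (i ^ 2 - 1) + 2 ≤ 2 ^ i ^ 2 := by
      have h3 : i ^ 2 = (i ^ 2 - 1) + 1 := by
        have : 1 ≤ i ^ 2 := Nat.one_le_pow _ _ (by omega)
        omega
      have h4 : 2 ^ i ^ 2 = 2 ^ (i ^ 2 - 1) * 2 := by
        conv_lhs => rw [h3]
        rw [pow_succ]
      have h5 : 2 ^ 1 ≤ 2 ^ (i ^ 2 - 1) := by
        refine Nat.pow_le_pow_right (by norm_num) ?_
        have : 4 * 4 ≤ i ^ 2 := by nlinarith
        omega
      omega
    have h3 : 2 ^ (i ^ 2 - 1) ≤ n := by omega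
    have h4 : i < 2 ^ (i ^ 2 - 1) := by
      have : i ≤ i ^ 2 - 1 := by
        have : i * 4 ≤ i ^ 2 := by nlinarith
        omega
      exact lt_of_lt_of_le Nat.lt_two_pow_self (Nat.pow_le_pow_right (by norm_num) this)
    have h5 := hN₀ n (by omega)
    have hlog : (i : ℝ) ^ 2 / 2 * Real.log 2 ≤ Real.log n := by
      have h6 : Real.log ((2 : ℝ) ^ (i ^ 2 - 1)) ≤ Real.log n :=
        Real.log_le_log (by positivity) (by exact_mod_cast h3)
      rw [Real.log_pow] at h6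
      refine le_trans (mul_le_mul_of_nonneg_right ?_ hl2.le) h6
      have h7 : 1 ≤ i ^ 2 := Nat.one_le_pow _ _ (by omega)
      rw [Nat.cast_sub h7]
      push_cast
      nlinarith
    have hpos : 0 < (i : ℝ) ^ 2 / 2 * Real.log 2 := by positivity
    refine h5.trans ?_
    calc C / Real.log n ≤ |C| / Real.log n :=
          div_le_div_of_nonneg_right (le_abs_self C) (by linarith)
      _ ≤ |C| / ((i : ℝ) ^ 2 / 2 * Real.log 2) := div_le_div_of_nonneg_left hC0 hpos hlog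
      _ ≤ K / (i : ℝ) ^ 2 := by
          rw [hK, div_div, div_le_div_iff₀ hpos (by positivity)]
          have : 0 < (i : ℝ) ^ 2 * Real.log 2 := by positivity
          nlinarith
  set e : ℕ → ℝ := fun i => if i₀ ≤ i then K / (i : ℝ) ^ 2 else 1 with he
  have hes : Summable e := by
    have h1 : Summable (fun i : ℕ => K / (i : ℝ) ^ 2) := by
      have := (Real.summable_one_div_nat_pow (p := 2)).2 (by norm_num)
      refine (this.mul_left K).congr fun i => ?_
      ring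
    have h2 : Summable (fun i => e i - K / (i : ℝ) ^ 2) := by
      refine summable_of_ne_finset_zero (s := range i₀) fun i hi => ?_
      rw [mem_range, not_lt] at hi
      simp only [he, if_pos hi, sub_self]
    exact (h2.add h1).congr fun i => by ring
  obtain ⟨Ω, i1, P, i2, A, hA, hae⟩ := scales' (p := p) hp hp1 (G := fun i => GG (JJ i))
    (fun i i' n h h' => GG_JJ_disj h h') (Bad := fun i S => ∃ N ∈ JJ i, N ∈ S ∧ N - 2 ∈ S)
    hes (by
      intro i
      by_cases hi : i₀ ≤ i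
      · have hiR : (i₀ : ℝ) ≤ i := by exact_mod_cast hi
        have h4 : (4 : ℝ) ≤ i := by
          have : 4 ≤ i := by omega
          exact_mod_cast this
        have h5 : K / (i : ℝ) ^ 2 ≤ 1 / 2 := by
          rw [div_le_div_iff₀ (by positivity) (by norm_num)]
          nlinarith [hi₀.2]
        obtain ⟨w, hw1, hw2⟩ := block_law (p := p) (JJ_adm i) (η := K / (i : ℝ) ^ 2)
          (by positivity) (by linarith) (fun n hn => ⟨hp n, hbound i hi n hn,
            (hbound i hi n hn).trans h5⟩)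
        refine ⟨w, hw1, ?_⟩
        simp only [he, if_pos hi]
        exact hw2
      · refine ⟨_, law_prod _ hp hp1 3, ?_⟩
        have h1 : e i = 1 := by simp only [he, if_neg hi]
        rw [h1]
        exact part_le (law_prod (GG (JJ i)) hp hp1 3) _)
  refine ⟨Ω, i1, P, i2, A, hA, ?_⟩
  have hthree : ∀ n : ℕ, 3 ∣ n → ∀ᵐ ω ∂P, n ∉ A ω := by
    intro n hn
    have h1 := hA.prob {n} (by simp)
    rw [prod_singleton, hp3 n hn] at h1
    have h2 : P {ω | ∀ m ∈ ({n} : Finset ℕ), m ∈ A ω} = 0 := by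
      rwa [measureReal_eq_zero_iff] at h1
    rw [ae_iff]
    refine measure_mono_null ?_ h2
    intro ω hω m hm
    rw [mem_singleton] at hm
    subst hm
    simpa using hω
  have hthree' : ∀ᵐ ω ∂P, ∀ n : ℕ, 3 ∣ n → n ∉ A ω := by
    rw [ae_all_iff]
    intro n
    by_cases hn : 3 ∣ n
    · filter_upwards [hthree n hn] with ω hω _
      exact hω
    · exact Eventually.of_forall fun ω h => absurd h hn
  filter_upwards [hae, hthree'] with ω h1 h2
  obtain ⟨i₁, hi₁⟩ := eventually_atTop.1 h1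
  obtain ⟨B, hB⟩ : ∃ B : ℕ, B = 2 ^ (i₁ + 1) ^ 2 + 4 := ⟨_, rfl⟩
  refine (Set.finite_lt_nat B).subset ?_
  intro N hNN
  obtain ⟨hN2, hN, hN'⟩ := hNN
  rw [Set.mem_ofPred_eq]
  by_contra hlt
  rw [not_lt, hB] at hlt
  have hmod : N % 3 = 1 := by
    have a1 : ¬ 3 ∣ N := fun h => h2 N h hN
    have a2 : ¬ 3 ∣ N - 2 := fun h => h2 _ h hN'
    omega
  have hcov := JJ_cover hmod (by omega)
  set i := Nat.sqrt (Nat.log 2 N) with hi
  have hge : i₁ ≤ i := by
    rw [hi, Nat.le_sqrt']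
    refine Nat.le_log_of_pow_le (by norm_num) ?_
    refine le_trans (Nat.pow_le_pow_right (by norm_num) ?_) (show 2 ^ (i₁ + 1) ^ 2 ≤ N by omega)
    exact Nat.pow_le_pow_left (by omega) 2
  obtain ⟨S, hS1, hS2⟩ := hi₁ i hge
  exact hS1 ⟨N, hcov, hS2 N (mem_GG.2 (Or.inl hcov)) hN,
    hS2 (N - 2) (mem_GG.2 (Or.inr ⟨N, hcov, rfl⟩)) hN'⟩

end Pool.Agent.H198.LI4
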