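import Pool.Graph.R_pool_sql_team_seeded_3997aac3.Q197.FM.Four2

/-! # Pairs of representations with the same value, on average -/

set_option autoImplicit false

namespace Pool.Agent.H198.LI4

open Finset Pool.Agent.W65.FS Pool.Agent.Q197.FM

noncomputable def I2 (B : ℕ) : Finset (ℤ × ℤ) := Icc (-(B : ℤ)) B ×ˢ Icc (-(B : ℤ)) B

def dd (a : ℤ × ℤ) : ℤ := a.1 ^ 2 - a.2 ^ 2

noncomputable def N2 (B : ℕ) (d : ℤ) : ℕ := ((I2 B).filter (fun a => dd a = d)).card

lemma card_Icc' (B : ℕ) : (Icc (-(B : ℤ)) B).card = 2 * B + 1 := by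
  rw [Int.card_Icc]
  omega

lemma card_I2 (B : ℕ) : (I2 B).card = (2 * B + 1) ^ 2 := by
  rw [I2, card_product, card_Icc', sq]

lemma N2_triv (B : ℕ) (d : ℤ) : N2 B d ≤ 2 * (2 * B + 1) := by
  classical
  have h1 : N2 B d ≤ (Icc (-(B : ℤ)) B ×ˢ (univ : Finset Bool)).card := by
    refine card_le_card_of_injOn (fun a => (a.1, decide (0 ≤ a.2))) (fun a ha => ?_) ?_
    · rw [mem_coe, mem_filter, I2, mem_product] at ha
      simp only [coe_product, Set.mem_prod, mem_coe, mem_univ, and_true]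
      exact ha.1.1
    · intro a ha a' ha' h
      rw [mem_coe, mem_filter] at ha ha'
      simp only [Prod.mk.injEq] at h
      obtain ⟨e1, e2⟩ := h
      have h2 := ha.2
      have h3 := ha'.2
      unfold dd at h2 h3
      rw [e1] at h2
      exact Prod.ext e1 (sign_eq (by linarith) e2)
  rw [card_product, card_univ, Fintype.card_bool, card_Icc'] at h1
  omega

lemma N2_ne (ε : ℝ) (hε : 0 < ε) : ∃ C : ℝ, 0 < C ∧ ∀ B : ℕ, 1 ≤ B → ∀ d : ℤ, d ≠ 0 →
    (N2 B d : ℝ) ≤ C * (B : ℝ) ^ ε := by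
  classical
  obtain ⟨C, hC, hdiv⟩ := H510R2.divisor_bound (ε / 2) (by linarith)
  refine ⟨2 * C, by positivity, fun B hB d hd => ?_⟩
  rcases ((I2 B).filter (fun a => dd a = d)).eq_empty_or_nonempty with h0 | ⟨a0, ha0⟩
  · rw [N2, h0, card_empty, Nat.cast_zero]
    positivity
  · have h1 : N2 B d ≤ (sdiv d).card := by
      refine card_le_card_of_injOn (fun a => a.1 - a.2) (fun a ha => ?_) ?_
      · rw [mem_coe, mem_filter] at ha
        have h2 := ha.2
        unfold dd at h2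
        exact mem_sdiv hd ⟨a.1 + a.2, by linarith⟩
      · intro a ha a' ha' h
        rw [mem_coe, mem_filter] at ha ha'
        have h2 := ha.2
        have h3 := ha'.2
        unfold dd at h2 h3
        have h4 : a.1 - a.2 = a'.1 - a'.2 := h
        have h5 : a.1 - a.2 ≠ 0 := by
          intro h6
          apply hd
          rw [← h2]
          have : a.1 = a.2 := by linarith
          rw [this]
          ring
        have h6 : (a.1 - a.2) * (a.1 + a.2) = (a.1 - a.2) * (a'.1 + a'.2) := by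
          conv_rhs => rw [h4]
          linarith
        have h7 := mul_left_cancel₀ h5 h6
        exact Prod.ext (by omega) (by omega)
    have h2 := card_sdiv d
    have h3 : (N2 B d : ℝ) ≤ 2 * (d.natAbs.divisors.card : ℝ) := by
      exact_mod_cast h1.trans h2
    have h4 := hdiv d.natAbs (Int.natAbs_pos.2 hd)
    rw [mem_filter, I2, mem_product, mem_Icc, mem_Icc] at ha0
    have h5 : d.natAbs ≤ B ^ 2 := by
      have e := ha0.2
      unfold dd at e
      have a1 : a0.1 ^ 2 ≤ (B : ℤ) ^ 2 := sq_le_sq' ha0.1.1.1 ha0.1.1.2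
      have a2 : a0.2 ^ 2 ≤ (B : ℤ) ^ 2 := sq_le_sq' ha0.1.2.1 ha0.1.2.2
      have a3 := sq_nonneg a0.1
      have a4 := sq_nonneg a0.2
      have a5 : ((B ^ 2 : ℕ) : ℤ) = (B : ℤ) ^ 2 := by push_cast; rfl
      omega
    have h6 : ((d.natAbs : ℕ) : ℝ) ^ (ε / 2) ≤ (B : ℝ) ^ ε := by
      have h7 : ((d.natAbs : ℕ) : ℝ) ≤ (B : ℝ) ^ (2 : ℝ) := by
        rw [Real.rpow_two]
        exact_mod_cast h5
      calc ((d.natAbs : ℕ) : ℝ) ^ (ε / 2) ≤ ((B : ℝ) ^ (2 : ℝ)) ^ (ε / 2) :=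
            Real.rpow_le_rpow (Nat.cast_nonneg _) h7 (by linarith)
        _ = (B : ℝ) ^ ε := by
            rw [← Real.rpow_mul (Nat.cast_nonneg _)]
            congr 1
            ring
    calc (N2 B d : ℝ) ≤ 2 * (d.natAbs.divisors.card : ℝ) := h3
      _ ≤ 2 * (C * ((d.natAbs : ℕ) : ℝ) ^ (ε / 2)) := by linarith
      _ ≤ 2 * (C * (B : ℝ) ^ ε) := by
          have := mul_le_mul_of_nonneg_left h6 hC.le
          linarith
      _ = _ := by ring

/-- two representations with the same value, coordinate by coordinate -/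
noncomputable def QQ (B : ℕ) : Finset (((ℤ × ℤ) × (ℤ × ℤ)) × ((ℤ × ℤ) × (ℤ × ℤ))) :=
  (((I2 B) ×ˢ (I2 B)) ×ˢ ((I2 B) ×ˢ (I2 B))).filter (fun t =>
    dd t.1.1 + dd t.1.2 + dd t.2.1 + dd t.2.2 = 0 ∧
    dd t.1.1 + 3 * dd t.1.2 + 5 * dd t.2.1 + 7 * dd t.2.2 = 0)

lemma QQ_card (B : ℕ) : (QQ B).card ≤
    ∑ s ∈ (I2 B) ×ˢ (I2 B), N2 B (-3 * dd s.1 - 2 * dd s.2) * N2 B (2 * dd s.1 + dd s.2) := by
  classical
  rw [QQ, card_filter, sum_product]
  refine sum_le_sum fun s _ => ?_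
  rw [← card_filter, N2, N2, ← card_product]
  refine card_le_card fun r hr => ?_
  rw [mem_filter, mem_product] at hr
  rw [mem_product, mem_filter, mem_filter]
  obtain ⟨⟨h1, h2⟩, h3, h4⟩ := hr
  refine ⟨⟨h1, ?_⟩, h2, ?_⟩ <;> simp only at h3 h4 <;> linarith

lemma QQ_bound (ε : ℝ) (hε : 0 < ε) : ∃ C : ℝ, 0 < C ∧ ∀ B : ℕ, 1 ≤ B →
    ((QQ B).card : ℝ) ≤ C * (B : ℝ) ^ (4 + ε) := by
  classical
  obtain ⟨C, hC, hN⟩ := N2_ne (ε / 2) (by linarith)
  refine ⟨81 * (C + 4) ^ 2, by positivity, fun B hB => ?_⟩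
  have hB1 : (1 : ℝ) ≤ B := by exact_mod_cast hB
  set K : ℝ := C * (B : ℝ) ^ (ε / 2) with hK
  have hK0 : 0 ≤ K := by positivity
  set b : ℝ := 2 * (2 * B + 1) with hb
  have hb0 : 0 ≤ b := by positivity
  have hN' : ∀ d : ℤ, (N2 B d : ℝ) ≤ K + b * (if d = 0 then 1 else 0) := by
    intro d
    by_cases hd : d = 0
    · rw [if_pos hd, mul_one]
      have h1 : (N2 B d : ℝ) ≤ b := by
        rw [hb]
        exact_mod_cast N2_triv B d
      linarith
    · rw [if_neg hd, mul_zero, add_zero]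
      exact hN B hB d hd
  have hNt : ∀ d : ℤ, (N2 B d : ℝ) ≤ b := by
    intro d
    rw [hb]
    exact_mod_cast N2_triv B d
  set M := (I2 B) ×ˢ (I2 B) with hM
  have hI : ((I2 B).card : ℝ) = (2 * B + 1) ^ 2 := by
    rw [card_I2]
    push_cast
    ring
  have hb2 : b ^ 2 = 4 * ((I2 B).card : ℝ) := by
    rw [hI, hb]
    ring
  have hMc : (M.card : ℝ) = ((I2 B).card : ℝ) ^ 2 := by
    rw [hM, card_product]
    push_cast
    ring
  -- the three indicators
  have c1 : ∑ s ∈ M, (if -3 * dd s.1 - 2 * dd s.2 = 0 then (1 : ℝ) else 0) ≤ (I2 B).card * b := by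
    rw [hM, sum_product, ← nsmul_eq_mul]
    refine sum_le_card_nsmul _ _ _ fun a0 _ => ?_
    rw [sum_boole]
    refine le_trans ?_ (hNt (-3 * dd a0 / 2))
    rw [N2]
    have : ((I2 B).filter (fun a => -3 * dd a0 - 2 * dd a = 0)) ⊆
        (I2 B).filter (fun a => dd a = -3 * dd a0 / 2) := by
      intro a ha
      rw [mem_filter] at ha ⊢
      exact ⟨ha.1, by omega⟩
    exact_mod_cast card_le_card this
  have c2 : ∑ s ∈ M, (if 2 * dd s.1 + dd s.2 = 0 then (1 : ℝ) else 0) ≤ (I2 B).card * b := by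
    rw [hM, sum_product, ← nsmul_eq_mul]
    refine sum_le_card_nsmul _ _ _ fun a0 _ => ?_
    rw [sum_boole]
    refine le_trans ?_ (hNt (-2 * dd a0))
    rw [N2]
    have : ((I2 B).filter (fun a => 2 * dd a0 + dd a = 0)) ⊆
        (I2 B).filter (fun a => dd a = -2 * dd a0) := by
      intro a ha
      rw [mem_filter] at ha ⊢
      exact ⟨ha.1, by omega⟩
    exact_mod_cast card_le_card this
  have c3 : ∑ s ∈ M, ((if -3 * dd s.1 - 2 * dd s.2 = 0 then (1 : ℝ) else 0) *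
      (if 2 * dd s.1 + dd s.2 = 0 then (1 : ℝ) else 0)) ≤ b ^ 2 := by
    have h1 : ∀ s ∈ M, ((if -3 * dd s.1 - 2 * dd s.2 = 0 then (1 : ℝ) else 0) *
      (if 2 * dd s.1 + dd s.2 = 0 then (1 : ℝ) else 0)) ≤
        (if dd s.1 = 0 then (1 : ℝ) else 0) * (if dd s.2 = 0 then (1 : ℝ) else 0) := by
      intro s _
      by_cases e1 : -3 * dd s.1 - 2 * dd s.2 = 0
      · by_cases e2 : 2 * dd s.1 + dd s.2 = 0
        · rw [if_pos e1, if_pos e2, if_pos (by omega), if_pos (by omega)]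
        · rw [if_neg e2, mul_zero]
          split_ifs <;> norm_num
      · rw [if_neg e1, zero_mul]
        split_ifs <;> norm_num
    refine (sum_le_sum h1).trans ?_
    have e : ∑ s ∈ M, (if dd s.1 = 0 then (1 : ℝ) else 0) * (if dd s.2 = 0 then (1 : ℝ) else 0) =
        (∑ a ∈ I2 B, (if dd a = 0 then (1 : ℝ) else 0)) *
          ∑ a ∈ I2 B, (if dd a = 0 then (1 : ℝ) else 0) := by
      rw [hM, sum_product, sum_mul_sum]
    rw [e, sum_boole]
    have h2 := hNt 0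
    rw [N2] at h2
    have h3 : (0 : ℝ) ≤ (((I2 B).filter (fun a => dd a = 0)).card : ℝ) := Nat.cast_nonneg _
    nlinarith
  have hsum : ((QQ B).card : ℝ) ≤ K ^ 2 * M.card + K * b * ((I2 B).card * b) +
      K * b * ((I2 B).card * b) + b ^ 2 * b ^ 2 := by
    have h1 : ((QQ B).card : ℝ) ≤ ∑ s ∈ M, (N2 B (-3 * dd s.1 - 2 * dd s.2) : ℝ) *
        (N2 B (2 * dd s.1 + dd s.2) : ℝ) := by exact_mod_cast QQ_card B
    refine h1.trans ?_
    have h2 : ∀ s ∈ M, (N2 B (-3 * dd s.1 - 2 * dd s.2) : ℝ) * (N2 B (2 * dd s.1 + dd s.2) : ℝ) ≤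
        K ^ 2 + K * b * (if -3 * dd s.1 - 2 * dd s.2 = 0 then (1 : ℝ) else 0) +
        K * b * (if 2 * dd s.1 + dd s.2 = 0 then (1 : ℝ) else 0) +
        b ^ 2 * ((if -3 * dd s.1 - 2 * dd s.2 = 0 then (1 : ℝ) else 0) *
          (if 2 * dd s.1 + dd s.2 = 0 then (1 : ℝ) else 0)) := by
      intro s _
      refine (mul_le_mul (hN' _) (hN' _) (Nat.cast_nonneg _) ?_).trans (le_of_eq ?_)
      · refine add_nonneg hK0 (mul_nonneg hb0 ?_)
        split_ifs <;> norm_num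
      · ring
    refine (sum_le_sum h2).trans ?_
    rw [sum_add_distrib, sum_add_distrib, sum_add_distrib, ← mul_sum, ← mul_sum, ← mul_sum,
      sum_const, nsmul_eq_mul]
    have a1 := mul_le_mul_of_nonneg_left c1 (mul_nonneg hK0 hb0)
    have a2 := mul_le_mul_of_nonneg_left c2 (mul_nonneg hK0 hb0)
    have a3 := mul_le_mul_of_nonneg_left c3 (sq_nonneg b)
    linarith
  have hfin : ((QQ B).card : ℝ) ≤ ((I2 B).card : ℝ) ^ 2 * (K + 4) ^ 2 := by
    refine hsum.trans (le_of_eq ?_)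
    rw [hMc]
    have : K * b * ((I2 B).card * b) = K * (I2 B).card * b ^ 2 := by ring
    rw [this, hb2]
    ring
  refine hfin.trans ?_
  have h1 : ((I2 B).card : ℝ) ^ 2 ≤ 81 * (B : ℝ) ^ 4 := by
    rw [hI]
    have h2 : (2 * (B : ℝ) + 1) ≤ 3 * B := by linarith
    calc ((2 * (B : ℝ) + 1) ^ 2) ^ 2 = (2 * (B : ℝ) + 1) ^ 4 := by ring
      _ ≤ (3 * (B : ℝ)) ^ 4 := pow_le_pow_left₀ (by positivity) h2 4
      _ = _ := by ring
  have h2 : (K + 4) ^ 2 ≤ (C + 4) ^ 2 * (B : ℝ) ^ ε := by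
    have h3 : (1 : ℝ) ≤ (B : ℝ) ^ (ε / 2) := Real.one_le_rpow hB1 (by linarith)
    have h4 : K + 4 ≤ (C + 4) * (B : ℝ) ^ (ε / 2) := by
      rw [hK]
      nlinarith
    calc (K + 4) ^ 2 ≤ ((C + 4) * (B : ℝ) ^ (ε / 2)) ^ 2 := pow_le_pow_left₀ (by positivity) h4 2
      _ = (C + 4) ^ 2 * ((B : ℝ) ^ (ε / 2)) ^ 2 := by ring
      _ = (C + 4) ^ 2 * (B : ℝ) ^ ε := by
          have e : ((B : ℝ) ^ (ε / 2)) ^ 2 = (B : ℝ) ^ ε := by
            rw [← Real.rpow_natCast, ← Real.rpow_mul (by linarith)]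
            congr 1
            push_cast
            ring
          rw [e]
  calc ((I2 B).card : ℝ) ^ 2 * (K + 4) ^ 2 ≤ (81 * (B : ℝ) ^ 4) * ((C + 4) ^ 2 * (B : ℝ) ^ ε) :=
        mul_le_mul h1 h2 (by positivity) (by positivity)
    _ = 81 * (C + 4) ^ 2 * ((B : ℝ) ^ 4 * (B : ℝ) ^ ε) := by ring
    _ = _ := by
        rw [Real.rpow_add (by linarith)]
        norm_num

/-- pairs of elements with the same value -/
def RR (S : Finset (Fin 4 → ℤ)) : Finset ((Fin 4 → ℤ) × (Fin 4 → ℤ)) :=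
  (S ×ˢ S).filter (fun t => pf t.1 = pf t.2)

def ph (t : (Fin 4 → ℤ) × (Fin 4 → ℤ)) : ((ℤ × ℤ) × (ℤ × ℤ)) × ((ℤ × ℤ) × (ℤ × ℤ)) :=
  (((t.1 0, t.2 0), (t.1 1, t.2 1)), ((t.1 2, t.2 2), (t.1 3, t.2 3)))

lemma ph_inj : Function.Injective ph := by
  intro t t' h
  simp only [ph, Prod.mk.injEq] at h
  obtain ⟨⟨⟨h1, h2⟩, h3, h4⟩, ⟨h5, h6⟩, h7, h8⟩ := h
  refine Prod.ext ?_ ?_
  · funext i
    fin_cases i
    · exact h1
    · exact h3
    · exact h5
    · exact h7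
  · funext i
    fin_cases i
    · exact h2
    · exact h4
    · exact h6
    · exact h8

lemma RR_total (S : ℕ → Finset (Fin 4 → ℤ)) (hS : ∀ n, ∀ X ∈ S n, ∑ i, X i ^ 2 = (n : ℤ)) {L : ℕ}
    {F : Finset ℕ} (hF : ∀ n ∈ F, n ≤ L) :
    ∑ n ∈ F, (RR (S n)).card ≤ (QQ (Nat.sqrt L)).card := by
  classical
  have h1 : ∀ n ∈ F, (RR (S n)).card = ((RR (S n)).image ph).card := fun n _ =>
    (card_image_of_injective _ ph_inj).symm
  rw [sum_congr rfl h1, ← card_biUnion]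
  · refine card_le_card ?_
    intro u hu
    rw [mem_biUnion] at hu
    obtain ⟨n, hn, hu⟩ := hu
    rw [mem_image] at hu
    obtain ⟨t, ht, rfl⟩ := hu
    rw [RR, mem_filter, mem_product] at ht
    obtain ⟨⟨h2, h3⟩, h4⟩ := ht
    have e1 := hS n _ h2
    have e2 := hS n _ h3
    have hmono : Nat.sqrt n ≤ Nat.sqrt L := Nat.sqrt_le_sqrt (hF n hn)
    have hI : ∀ i : Fin 4, (t.1 i, t.2 i) ∈ I2 (Nat.sqrt L) := by
      intro i
      have a1 := coord_mem (n := n) (X := t.1) e1 i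
      have a2 := coord_mem (n := n) (X := t.2) e2 i
      rw [mem_Icc] at a1 a2
      rw [I2, mem_product, mem_Icc, mem_Icc]
      have : (Nat.sqrt n : ℤ) ≤ (Nat.sqrt L : ℤ) := by exact_mod_cast hmono
      exact ⟨⟨by simp only; linarith, by simp only; linarith⟩,
        ⟨by simp only; linarith, by simp only; linarith⟩⟩
    rw [QQ, mem_filter, mem_product, mem_product, mem_product]
    refine ⟨⟨⟨hI 0, hI 1⟩, hI 2, hI 3⟩, ?_, ?_⟩
    · simp only [ph, dd]
      rw [Fin.sum_univ_four] at e1 e2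
      linarith
    · simp only [ph, dd]
      unfold pf at h4
      linarith
  · intro n _ m _ hnm
    rw [Function.onFun, disjoint_left]
    intro u hu hu'
    rw [mem_image] at hu hu'
    obtain ⟨t, ht, rfl⟩ := hu
    obtain ⟨t', ht', h⟩ := hu'
    have := ph_inj h
    subst this
    rw [RR, mem_filter, mem_product] at ht ht'
    have e1 := hS n _ ht.1.1
    have e2 := hS m _ ht'.1.1
    apply hnm
    have : (n : ℤ) = m := by rw [← e1, ← e2]
    exact_mod_cast this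

/-- few values need many pairs -/
lemma RR_lower (S : Finset (Fin 4 → ℤ)) :
    (S.card : ℝ) ^ 2 ≤ ((S.image pf).card : ℝ) * ((RR S).card : ℝ) := by
  classical
  have h1 : (S.card : ℝ) = ∑ v ∈ S.image pf, ((S.filter (fun X => pf X = v)).card : ℝ) := by
    rw [card_eq_sum_card_fiberwise (f := pf) (t := S.image pf)
      (fun X hX => mem_coe.2 (mem_image_of_mem _ hX))]
    push_cast
    rfl
  have h2 : ((RR S).card : ℝ) = ∑ v ∈ S.image pf, ((S.filter (fun X => pf X = v)).card : ℝ) ^ 2 := by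
    have h0 : ∀ t ∈ RR S, pf t.1 ∈ S.image pf := by
      intro t ht
      rw [RR, mem_filter, mem_product] at ht
      exact mem_image_of_mem pf ht.1.1
    have h3 : (RR S).card = ∑ v ∈ S.image pf, ((RR S).filter (fun t => pf t.1 = v)).card :=
      card_eq_sum_card_fiberwise (f := fun t : (Fin 4 → ℤ) × (Fin 4 → ℤ) => pf t.1)
        (s := RR S) (t := S.image pf) (fun t ht => h0 t ht)
    rw [h3]
    push_cast
    refine sum_congr rfl fun v _ => ?_
    rw [sq, ← Nat.cast_mul, ← card_product]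
    congr 2
    ext t
    simp only [RR, mem_filter, mem_product]
    constructor
    · rintro ⟨⟨⟨a1, a2⟩, a3⟩, a4⟩
      exact ⟨⟨a1, a4⟩, a2, by rw [← a3]; exact a4⟩
    · rintro ⟨⟨a1, a2⟩, a3, a4⟩
      exact ⟨⟨⟨a1, a3⟩, by rw [a2, a4]⟩, a2⟩
  rw [h1, h2]
  exact sq_sum_le_card_mul_sum_sq

end Pool.Agent.H198.LI4
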