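import Pool.Agent.H198.LI4.C

/-! # Many values, also on average -/

set_option autoImplicit false

namespace Pool.Agent.H198.LI4

open Finset Filter Pool.Agent.W65.FS Pool.Agent.Q197.FM

lemma two_rpow (x : ℝ) (k : ℕ) : ((2 : ℝ) ^ k) ^ x = ((2 : ℝ) ^ x) ^ k := by
  rw [← Real.rpow_natCast, ← Real.rpow_mul (by norm_num), mul_comm, Real.rpow_mul (by norm_num),
    Real.rpow_natCast]

lemma sum_blocks (a : ℕ → ℝ) (N : ℕ) :
    ∑ n ∈ Ico 1 (2 ^ N), a n = ∑ k ∈ range N, ∑ n ∈ Ico (2 ^ k) (2 ^ (k + 1)), a n := by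
  induction N with
  | zero => simp
  | succ N ih =>
    rw [sum_range_succ, ← ih, sum_Ico_consecutive]
    · exact Nat.one_le_two_pow
    · exact Nat.pow_le_pow_right (by norm_num) (by omega)

lemma dyadic {a : ℕ → ℝ} (ha : ∀ n, 0 ≤ a n) {C ρ : ℝ} (hρ0 : 0 ≤ ρ) (hρ : ρ < 1)
    (h : ∀ k, ∑ n ∈ Ico (2 ^ k) (2 ^ (k + 1)), a n ≤ C * ρ ^ k) : Summable a := by
  have hs : Summable (fun k : ℕ => C * ρ ^ k) := (summable_geometric_of_lt_one hρ0 hρ).mul_left C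
  have hC : ∀ k, 0 ≤ C * ρ ^ k := fun k => (sum_nonneg fun n _ => ha n).trans (h k)
  refine summable_of_sum_range_le (c := a 0 + ∑' k, C * ρ ^ k) ha fun N => ?_
  have h1 : ∑ n ∈ range N, a n ≤ ∑ n ∈ insert 0 (Ico 1 (2 ^ N)), a n := by
    refine sum_le_sum_of_subset_of_nonneg ?_ fun n _ _ => ha n
    intro n hn
    rw [mem_range] at hn
    rw [mem_insert, mem_Ico]
    have : N < 2 ^ N := Nat.lt_two_pow_self
    omega
  refine h1.trans ?_
  rw [sum_insert (by simp), sum_blocks]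
  have h2 : ∑ k ∈ range N, ∑ n ∈ Ico (2 ^ k) (2 ^ (k + 1)), a n ≤ ∑ k ∈ range N, C * ρ ^ k :=
    sum_le_sum fun k _ => h k
  have h3 := hs.sum_le_tsum (range N) fun k _ => hC k
  linarith

/-- the value predicate -/
def VV (n N : ℕ) : Prop := ∃ x y z w : ℤ, (n : ℤ) = x ^ 2 + y ^ 2 + z ^ 2 + w ^ 2 ∧
  (N : ℤ) = x ^ 2 + 3 * y ^ 2 + 5 * z ^ 2 + 7 * w ^ 2

/-- all prime factors exceed `N ^ δ` -/
def RoughTo (δ : ℝ) (N : ℕ) : Prop := ∀ q : ℕ, q.Prime → q ∣ N → (N : ℝ) ^ δ < q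

theorem values2 (ε : ℝ) (hε : 0 < ε) (hε1 : ε ≤ 1) : ∃ δ : ℝ, 0 < δ ∧ ∃ c : ℝ, 0 < c ∧ ∃ C : ℝ, 0 < C ∧
    ∃ P : ℕ → Finset ℕ,
      (∀ n : ℕ, 7 ≤ n → Odd n → c * (n : ℝ) ^ (1 / 2 - ε) ≤ ((P n).card : ℝ) ∧
        ∀ p ∈ P n, n ≤ p ∧ p ≤ 7 * n ∧ RoughTo δ p ∧ RoughTo δ (p - 2) ∧ VV n p) ∧
      ∀ k : ℕ, ∑ n ∈ (Ico (2 ^ k) (2 ^ (k + 1))).filter (fun n => 7 ≤ n ∧ Odd n),
        1 / ((P n).card : ℝ) ≤ C * ((2 : ℝ) ^ k) ^ ε := by
  classical
  obtain ⟨K, δ, hδ, c, hc, h⟩ := uniform (ε / 4) (by linarith)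
  obtain ⟨C, hC, hmult⟩ := mult (ε / 4) (by linarith)
  obtain ⟨C1, hC1, hQ⟩ := QQ_bound ε hε
  have hch : ∀ n : ℕ, ∃ S : Finset (Fin 4 → ℤ), (∀ X ∈ S, ∑ i, X i ^ 2 = (n : ℤ)) ∧
      (Odd n → c * (n : ℝ) ^ (1 - ε / 4) ≤ S.card ∧ ∀ X ∈ S, ∑ i, X i ^ 2 = (n : ℤ) ∧
      (∀ q : ℕ, q.Prime → (q : ℤ) ∣ pf X * (pf X - 2) → (n : ℝ) ^ δ < q) ∧ 0 < pf X) := by
    intro n
    by_cases hn : Odd n
    · obtain ⟨S, h1, h2⟩ := h n hn
      exact ⟨S, fun X hX => (h2 X hX).1, fun _ => ⟨h1, fun X hX =>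
        ⟨(h2 X hX).1, (h2 X hX).2.1, (h2 X hX).2.2.1⟩⟩⟩
    · exact ⟨∅, fun X hX => absurd hX (notMem_empty X), fun h => absurd h hn⟩
  choose S hS0 hS using hch
  set P : ℕ → Finset ℕ := fun n => ((S n).image pf).image Int.toNat with hP
  have hPc : ∀ n, Odd n → ((P n).card : ℝ) = (((S n).image pf).card : ℝ) := by
    intro n hn
    have : (P n).card = ((S n).image pf).card := by
      refine card_image_of_injOn (fun a ha b hb hab => ?_)
      obtain ⟨X, hX, rfl⟩ := mem_image.1 (mem_coe.1 ha)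
      obtain ⟨Y, hY, rfl⟩ := mem_image.1 (mem_coe.1 hb)
      have h1 := ((hS n hn).2 X hX).2.2
      have h2 := ((hS n hn).2 Y hY).2.2
      omega
    exact_mod_cast this
  refine ⟨δ / 2, by linarith, c / C, by positivity, C1 * (2 : ℝ) ^ (2 + ε / 2) / c ^ 2,
    by positivity, P, ?_, ?_⟩
  · intro n hn hodd
    have hn0 : (0 : ℝ) < n := by exact_mod_cast (show 0 < n by omega)
    have hn1 : (1 : ℝ) ≤ n := by exact_mod_cast (show 1 ≤ n by omega)
    constructor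
    · rw [hPc n hodd]
      have hV1 : ((S n).card : ℝ) ≤ ((S n).image pf).card * (C * (n : ℝ) ^ (1 / 2 + ε / 4)) := by
        have h1 : ((S n).card : ℝ) = ∑ v ∈ (S n).image pf,
            (((S n).filter (fun X => pf X = v)).card : ℝ) := by
          rw [card_eq_sum_card_fiberwise (f := pf) (t := (S n).image pf)
            (fun X hX => mem_coe.2 (mem_image_of_mem pf hX))]
          push_cast
          rfl
        rw [h1, ← nsmul_eq_mul]
        refine sum_le_card_nsmul _ _ _ (fun v _ => ?_)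
        refine hmult n (by omega) v _ (fun X hX => ?_)
        rw [mem_filter] at hX
        exact ⟨hS0 n X hX.1, hX.2⟩
      have h2 := (hS n hodd).1.trans hV1
      have h3 : (n : ℝ) ^ (1 - ε / 4) = (n : ℝ) ^ (1 / 2 - ε / 2) * (n : ℝ) ^ (1 / 2 + ε / 4) := by
        rw [← Real.rpow_add hn0]
        congr 1
        ring
      rw [h3] at h2
      have h4 : 0 < (n : ℝ) ^ (1 / 2 + ε / 4) := by positivity
      have h5 : c * (n : ℝ) ^ (1 / 2 - ε / 2) ≤ ((S n).image pf).card * C := by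
        refine le_of_mul_le_mul_right ?_ h4
        linarith
      have h6 : (n : ℝ) ^ (1 / 2 - ε) ≤ (n : ℝ) ^ (1 / 2 - ε / 2) :=
        Real.rpow_le_rpow_of_exponent_le hn1 (by linarith)
      rw [div_mul_eq_mul_div, div_le_iff₀ (by positivity)]
      have := mul_le_mul_of_nonneg_left h6 hc.le
      linarith
    · intro p hp
      rw [hP, mem_image] at hp
      obtain ⟨v, hv, rfl⟩ := hp
      rw [mem_image] at hv
      obtain ⟨X, hX, rfl⟩ := hv
      obtain ⟨s1, s2, s3⟩ := (hS n hodd).2 X hX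
      have l1 := pf_lower n X s1
      have l2 := pf_upper n X s1
      have hb1 : n ≤ (pf X).toNat := by omega
      have hb2 : (pf X).toNat ≤ 7 * n := by omega
      have hpow : ∀ m : ℕ, m ≤ 7 * n → (m : ℝ) ^ (δ / 2) ≤ (n : ℝ) ^ δ := by
        intro m hm
        have h1 : (m : ℝ) ≤ (n : ℝ) ^ (2 : ℝ) := by
          have : m ≤ n ^ 2 := hm.trans (by nlinarith)
          rw [Real.rpow_two]
          exact_mod_cast this
        calc (m : ℝ) ^ (δ / 2) ≤ ((n : ℝ) ^ (2 : ℝ)) ^ (δ / 2) :=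
              Real.rpow_le_rpow (Nat.cast_nonneg _) h1 (by linarith)
          _ = (n : ℝ) ^ δ := by
            rw [← Real.rpow_mul hn0.le]
            congr 1
            ring
      refine ⟨hb1, hb2, fun q hq hqp => ?_, fun q hq hqp => ?_, X 0, X 1, X 2, X 3, ?_, ?_⟩
      · refine (hpow _ hb2).trans_lt (s2 q hq ?_)
        have h1 : (q : ℤ) ∣ pf X := by
          have h2 : (q : ℤ) ∣ ((pf X).toNat : ℤ) := by exact_mod_cast hqp
          rwa [Int.toNat_of_nonneg (by omega)] at h2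
        exact Dvd.dvd.mul_right h1 _
      · refine (hpow _ (by omega)).trans_lt (s2 q hq ?_)
        have h1 : (q : ℤ) ∣ pf X - 2 := by
          have h2 : (q : ℤ) ∣ (((pf X).toNat - 2 : ℕ) : ℤ) := by exact_mod_cast hqp
          have h3 : (((pf X).toNat - 2 : ℕ) : ℤ) = pf X - 2 := by omega
          rwa [h3] at h2
        exact Dvd.dvd.mul_left h1 _
      · rw [← s1, Fin.sum_univ_four]
      · rw [Int.toNat_of_nonneg (by omega)]
        rfl
  · intro k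
    set F := (Ico (2 ^ k) (2 ^ (k + 1))).filter (fun n => 7 ≤ n ∧ Odd n) with hF
    have hk1 : (1 : ℝ) ≤ (2 : ℝ) ^ k := one_le_pow₀ (by norm_num)
    have hmem : ∀ n ∈ F, (2 ^ k ≤ n ∧ n < 2 ^ (k + 1)) ∧ 7 ≤ n ∧ Odd n := by
      intro n hn
      rw [hF, mem_filter, mem_Ico] at hn
      exact hn
    have hterm : ∀ n ∈ F, 1 / ((P n).card : ℝ) ≤
        (1 / (c ^ 2 * ((2 : ℝ) ^ k) ^ (2 - ε / 2))) * ((RR (S n)).card : ℝ) := by
      intro n hn
      obtain ⟨⟨h1, _⟩, h3, hodd⟩ := hmem n hn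
      have hn0 : (0 : ℝ) < n := by exact_mod_cast (show 0 < n by omega)
      rw [hPc n hodd]
      have h4 := RR_lower (S n)
      have h5 : c ^ 2 * ((2 : ℝ) ^ k) ^ (2 - ε / 2) ≤ ((S n).card : ℝ) ^ 2 := by
        have h6 : ((2 : ℝ) ^ k) ^ (1 - ε / 4) ≤ (n : ℝ) ^ (1 - ε / 4) :=
          Real.rpow_le_rpow (by positivity) (by exact_mod_cast h1) (by linarith)
        have h7 : c * ((2 : ℝ) ^ k) ^ (1 - ε / 4) ≤ ((S n).card : ℝ) :=
          (mul_le_mul_of_nonneg_left h6 hc.le).trans (hS n hodd).1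
        calc c ^ 2 * ((2 : ℝ) ^ k) ^ (2 - ε / 2) = (c * ((2 : ℝ) ^ k) ^ (1 - ε / 4)) ^ 2 := by
              rw [mul_pow, ← Real.rpow_natCast (((2 : ℝ) ^ k) ^ (1 - ε / 4)),
                ← Real.rpow_mul (by positivity)]
              congr 2
              push_cast
              ring
          _ ≤ _ := pow_le_pow_left₀ (by positivity) h7 2
      have h6 : 0 < c ^ 2 * ((2 : ℝ) ^ k) ^ (2 - ε / 2) := by positivity
      have h7 : 0 < ((S n).card : ℝ) ^ 2 := lt_of_lt_of_le h6 h5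
      have h8 : 0 < (((S n).image pf).card : ℝ) := by
        rcases Nat.eq_zero_or_pos ((S n).image pf).card with h9 | h9
        · rw [h9, Nat.cast_zero, zero_mul] at h4
          linarith
        · exact_mod_cast h9
      rw [one_div_mul_eq_div, div_le_div_iff₀ h8 h6]
      linarith
    refine (sum_le_sum hterm).trans ?_
    rw [← mul_sum]
    have h1 : ∑ n ∈ F, ((RR (S n)).card : ℝ) ≤ C1 * (2 : ℝ) ^ (2 + ε / 2) *
        ((2 : ℝ) ^ k) ^ (2 + ε / 2) := by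
      have h2 := RR_total S hS0 (L := 2 ^ (k + 1)) (F := F) (fun n hn => (hmem n hn).1.2.le)
      have h3 : ∑ n ∈ F, ((RR (S n)).card : ℝ) ≤ ((QQ (Nat.sqrt (2 ^ (k + 1)))).card : ℝ) := by
        exact_mod_cast h2
      have hs1 : 1 ≤ Nat.sqrt (2 ^ (k + 1)) := Nat.sqrt_pos.2 (Nat.two_pow_pos _)
      refine (h3.trans (hQ _ hs1)).trans ?_
      rw [mul_assoc]
      refine mul_le_mul_of_nonneg_left ?_ hC1.le
      rw [← Real.mul_rpow (by norm_num) (by positivity)]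
      have h4 : ((Nat.sqrt (2 ^ (k + 1)) : ℕ) : ℝ) ≤ (2 * (2 : ℝ) ^ k) ^ (1 / 2 : ℝ) := by
        rw [← Real.sqrt_eq_rpow]
        refine Real.nat_sqrt_le_real_sqrt.trans (le_of_eq ?_)
        congr 1
        push_cast
        ring
      calc ((Nat.sqrt (2 ^ (k + 1)) : ℕ) : ℝ) ^ (4 + ε) ≤ ((2 * (2 : ℝ) ^ k) ^ (1 / 2 : ℝ)) ^ (4 + ε) :=
            Real.rpow_le_rpow (Nat.cast_nonneg _) h4 (by linarith)
        _ = (2 * (2 : ℝ) ^ k) ^ (2 + ε / 2) := by
            rw [← Real.rpow_mul (by positivity)]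
            congr 1
            ring
    refine (mul_le_mul_of_nonneg_left h1 (by positivity)).trans (le_of_eq ?_)
    have e : ((2 : ℝ) ^ k) ^ (2 + ε / 2) = ((2 : ℝ) ^ k) ^ (2 - ε / 2) * ((2 : ℝ) ^ k) ^ ε := by
      rw [← Real.rpow_add (by positivity)]
      congr 1
      ring
    rw [e]
    have h6 : 0 < ((2 : ℝ) ^ k) ^ (2 - ε / 2) := by positivity
    field_simp

end Pool.Agent.H198.LI4
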