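import Pool.Agent.H198.LI4.D
import Pool.Graph.R_pool_sql_team_seeded_3997aac3.Q167.LF.A

/-! # Orders four and eight -/

set_option autoImplicit false

namespace Pool.Agent.H198.LI4

open Finset MeasureTheory Filter Q167.WK
open scoped Topology

variable {Ω : Type*} [MeasurableSpace Ω] {μ : Measure Ω} {p : ℕ → ℝ} {κ : ℕ} {A : Ω → Set ℕ}

/-- probabilities which are at least `N ^ (-o(1))` on the rough numbers -/
structure Rough (p : ℕ → ℝ) : Prop where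
  nonneg : ∀ N, 0 ≤ p N
  le_one : ∀ N, p N ≤ 1
  lower : ∀ δ : ℝ, 0 < δ → ∀ ε : ℝ, 0 < ε → ∀ᶠ N : ℕ in atTop, RoughTo δ N → (N : ℝ) ^ (-ε) ≤ p N

/-- the upper members of the pairs -/
def A2 (A : Ω → Set ℕ) (ω : Ω) : Set ℕ := {N | (N % 3 = 1 ∧ 2 ≤ N) ∧ N ∈ A ω ∧ N - 2 ∈ A ω}

noncomputable def p2 (p : ℕ → ℝ) (N : ℕ) : ℝ := if N % 3 = 1 ∧ 2 ≤ N then p N * p (N - 2) else 0

lemma pair_model {κ' : ℕ} (hA : LimModel μ p κ A) (hκ : 2 * κ' ≤ κ) :
    LimModel μ (p2 p) κ' (A2 A) := by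
  classical
  constructor
  · intro N
    by_cases h : N % 3 = 1 ∧ 2 ≤ N
    · have e : {ω | N ∈ A2 A ω} = {ω | N ∈ A ω} ∩ {ω | N - 2 ∈ A ω} := by
        ext ω
        simp only [A2, Set.mem_ofPred_eq, Set.mem_inter_iff]
        exact ⟨fun h' => h'.2, fun h' => ⟨h, h'⟩⟩
      rw [e]
      exact (hA.meas N).inter (hA.meas (N - 2))
    · have e : {ω | N ∈ A2 A ω} = ∅ := by
        ext ω
        simp only [A2, Set.mem_ofPred_eq, Set.mem_empty_iff_false, iff_false]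
        exact fun h' => h h'.1
      rw [e]
      exact MeasurableSet.empty
  · intro T hT
    by_cases hall : ∀ N ∈ T, N % 3 = 1 ∧ 2 ≤ N
    · have e : {ω | ∀ N ∈ T, N ∈ A2 A ω} = {ω | ∀ n ∈ T ∪ T.image (fun N => N - 2), n ∈ A ω} := by
        ext ω
        simp only [A2, Set.mem_ofPred_eq, mem_union, mem_image]
        constructor
        · rintro h n (hn | ⟨M, hM, rfl⟩)
          · exact (h n hn).2.1
          · exact (h M hM).2.2
        · intro h N hN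
          exact ⟨hall N hN, h N (Or.inl hN), h (N - 2) (Or.inr ⟨N, hN, rfl⟩)⟩
      have hinj : ∀ a ∈ T, ∀ b ∈ T, a - 2 = b - 2 → a = b := by
        intro a ha b hb hab
        have h3 := hall a ha
        have h4 := hall b hb
        omega
      have hd : Disjoint T (T.image (fun N => N - 2)) := by
        rw [disjoint_left]
        intro n hn h
        rw [mem_image] at h
        obtain ⟨M, hM, h2⟩ := h
        have h3 := hall n hn
        have h4 := hall M hM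
        omega
      rw [e, hA.prob _ (by
        rw [card_union_of_disjoint hd]
        have : (T.image (fun N => N - 2)).card ≤ T.card := card_image_le
        omega), prod_union hd, prod_image (fun a ha b hb hab => hinj a ha b hb hab),
        ← prod_mul_distrib]
      refine prod_congr rfl fun N hN => ?_
      rw [p2, if_pos (hall N hN)]
    · push Not at hall
      obtain ⟨N, hN, h⟩ := hall
      have hne : ¬ (N % 3 = 1 ∧ 2 ≤ N) := fun h' => absurd h'.2 (by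
        have := h h'.1
        omega)
      have e : {ω | ∀ N ∈ T, N ∈ A2 A ω} = ∅ := by
        ext ω
        simp only [A2, Set.mem_ofPred_eq, Set.mem_empty_iff_false, iff_false]
        intro h'
        exact hne (h' N hN).1
      rw [e, measureReal_empty]
      symm
      refine prod_eq_zero hN ?_
      rw [p2, if_neg hne]

/-- the values and the sums of their probabilities -/
theorem data (hp : Rough p) (ε : ℝ) (hε : 0 < ε) (hε1 : ε ≤ 1) :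
    ∃ n₀ : ℕ, 7 ≤ n₀ ∧ ∃ T : ℕ → Finset ℕ, ∃ C : ℝ, 0 < C ∧
      (∀ n, n₀ ≤ n → Odd n → 2 * (n : ℝ) ^ (1 / 2 - ε) ≤ ∑ N ∈ T n, p2 p N ∧ ∀ N ∈ T n, VV n N) ∧
      ∀ k : ℕ, ∑ n ∈ (Ico (2 ^ k) (2 ^ (k + 1))).filter (fun n => n₀ ≤ n ∧ Odd n),
        1 / (∑ N ∈ T n, p2 p N) ≤ C * ((2 : ℝ) ^ k) ^ ε := by
  classical
  obtain ⟨δ, hδ, c, hc, C, hC, P, h1, h2⟩ := values2 (ε / 2) (by linarith) (by linarith)
  have hlow := hp.lower δ hδ (ε / 16) (by linarith)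
  obtain ⟨N₀, hN₀⟩ := eventually_atTop.1 hlow
  have t1 : Tendsto (fun n : ℕ => (n : ℝ) ^ (ε / 4)) atTop atTop :=
    (tendsto_rpow_atTop (by positivity)).comp tendsto_natCast_atTop_atTop
  have t2 : Tendsto (fun n : ℕ => (n : ℝ) ^ δ) atTop atTop :=
    (tendsto_rpow_atTop hδ).comp tendsto_natCast_atTop_atTop
  obtain ⟨n₁, hn₁⟩ := eventually_atTop.1 ((t1.eventually_ge_atTop (2 / c)).and
    (t2.eventually_ge_atTop 3))
  have hterm : ∀ n, N₀ + n₁ + 9 ≤ n → Odd n →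
      ((P n).card : ℝ) * (n : ℝ) ^ (-(ε / 4)) ≤ ∑ N ∈ P n, p2 p N := by
    intro n hn hodd
    have hn0 : (0 : ℝ) < n := by exact_mod_cast (show 0 < n by omega)
    rw [← nsmul_eq_mul]
    refine card_nsmul_le_sum _ _ _ fun N hN => ?_
    obtain ⟨b1, b2, b3, b4, _⟩ := (h1 n (by omega) hodd).2 N hN
    have g3 : ∀ M : ℕ, n₁ ≤ M → RoughTo δ M → ¬ 3 ∣ M := by
      intro M hM hR h3
      have h4 := hR 3 Nat.prime_three h3
      have h5 := (hn₁ M hM).2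
      have h6 : ((3 : ℕ) : ℝ) = 3 := by norm_num
      rw [h6] at h4
      linarith
    have a1 := g3 N (by omega) b3
    have a2 := g3 (N - 2) (by omega) b4
    have hmod : N % 3 = 1 ∧ 2 ≤ N := by omega
    rw [p2, if_pos hmod]
    have a3 := hN₀ N (by omega) b3
    have a4 := hN₀ (N - 2) (by omega) b4
    have hup : ∀ M : ℕ, 0 < M → M ≤ 7 * n → (n : ℝ) ^ (-(ε / 8)) ≤ (M : ℝ) ^ (-(ε / 16)) := by
      intro M hM hM7
      have h3 : (M : ℝ) ≤ (n : ℝ) ^ (2 : ℝ) := by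
        have : M ≤ n ^ 2 := hM7.trans (by nlinarith)
        rw [Real.rpow_two]
        exact_mod_cast this
      have h4 : ((n : ℝ) ^ (2 : ℝ)) ^ (-(ε / 16)) ≤ (M : ℝ) ^ (-(ε / 16)) :=
        Real.rpow_le_rpow_of_nonpos (by exact_mod_cast hM) h3 (by linarith)
      refine le_trans (le_of_eq ?_) h4
      rw [← Real.rpow_mul hn0.le]
      congr 1
      ring
    have a5 := (hup N (by omega) b2).trans a3
    have a6 := (hup (N - 2) (by omega) (by omega)).trans a4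
    calc (n : ℝ) ^ (-(ε / 4)) = (n : ℝ) ^ (-(ε / 8)) * (n : ℝ) ^ (-(ε / 8)) := by
          rw [← Real.rpow_add hn0]
          congr 1
          ring
      _ ≤ _ := mul_le_mul a5 a6 (Real.rpow_nonneg hn0.le _) (hp.nonneg _)
  have hlarge : ∀ n, N₀ + n₁ + 9 ≤ n → Odd n →
      2 * (n : ℝ) ^ (1 / 2 - ε) ≤ ((P n).card : ℝ) * (n : ℝ) ^ (-(ε / 4)) := by
    intro n hn hodd
    have hn0 : (0 : ℝ) < n := by exact_mod_cast (show 0 < n by omega)
    have a1 := (h1 n (by omega) hodd).1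
    have a2 := (hn₁ n (by omega)).1
    have a3 : (n : ℝ) ^ (1 / 2 - ε / 2) * (n : ℝ) ^ (-(ε / 4)) =
        (n : ℝ) ^ (1 / 2 - ε) * (n : ℝ) ^ (ε / 4) := by
      rw [← Real.rpow_add hn0, ← Real.rpow_add hn0]
      congr 1
      ring
    rw [div_le_iff₀ hc] at a2
    have a4 : 0 ≤ (n : ℝ) ^ (1 / 2 - ε) := Real.rpow_nonneg hn0.le _
    calc 2 * (n : ℝ) ^ (1 / 2 - ε) ≤ (n : ℝ) ^ (ε / 4) * c * (n : ℝ) ^ (1 / 2 - ε) :=
          mul_le_mul_of_nonneg_right a2 a4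
      _ = c * ((n : ℝ) ^ (1 / 2 - ε) * (n : ℝ) ^ (ε / 4)) := by ring
      _ = c * (n : ℝ) ^ (1 / 2 - ε / 2) * (n : ℝ) ^ (-(ε / 4)) := by rw [← a3]; ring
      _ ≤ _ := mul_le_mul_of_nonneg_right a1 (Real.rpow_nonneg hn0.le _)
  refine ⟨N₀ + n₁ + 9, by omega, P, C * (2 : ℝ) ^ (ε / 4), by positivity, fun n hn hodd =>
    ⟨(hlarge n hn hodd).trans (hterm n hn hodd), fun N hN =>
      ((h1 n (by omega) hodd).2 N hN).2.2.2.2⟩, fun k => ?_⟩
  have hstep : ∀ n ∈ (Ico (2 ^ k) (2 ^ (k + 1))).filter (fun n => N₀ + n₁ + 9 ≤ n ∧ Odd n),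
      1 / (∑ N ∈ P n, p2 p N) ≤ (2 * (2 : ℝ) ^ k) ^ (ε / 4) * (1 / ((P n).card : ℝ)) := by
    intro n hn
    rw [mem_filter, mem_Ico] at hn
    obtain ⟨⟨g1, g2⟩, g3, g4⟩ := hn
    have hn0 : (0 : ℝ) < n := by exact_mod_cast (show 0 < n by omega)
    have a1 := hterm n g3 g4
    have a2 := hlarge n g3 g4
    have a3 : 0 < 2 * (n : ℝ) ^ (1 / 2 - ε) := by positivity
    have a4 : 0 < (n : ℝ) ^ (-(ε / 4)) := by positivity
    have a5 : 0 < ((P n).card : ℝ) := by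
      by_contra h
      rw [not_lt] at h
      have : ((P n).card : ℝ) * (n : ℝ) ^ (-(ε / 4)) ≤ 0 := mul_nonpos_of_nonpos_of_nonneg h a4.le
      linarith
    have a6 : (n : ℝ) ^ (ε / 4) ≤ (2 * (2 : ℝ) ^ k) ^ (ε / 4) := by
      refine Real.rpow_le_rpow hn0.le ?_ (by linarith)
      have : (n : ℝ) ≤ (2 : ℝ) ^ (k + 1) := by exact_mod_cast g2.le
      rw [pow_succ] at this
      linarith
    calc 1 / (∑ N ∈ P n, p2 p N) ≤ 1 / (((P n).card : ℝ) * (n : ℝ) ^ (-(ε / 4))) :=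
          one_div_le_one_div_of_le (by positivity) a1
      _ = (n : ℝ) ^ (ε / 4) * (1 / ((P n).card : ℝ)) := by
          rw [Real.rpow_neg hn0.le]
          field_simp
      _ ≤ _ := mul_le_mul_of_nonneg_right a6 (by positivity)
  refine (sum_le_sum hstep).trans ?_
  rw [← mul_sum]
  have h3 : ∑ n ∈ (Ico (2 ^ k) (2 ^ (k + 1))).filter (fun n => N₀ + n₁ + 9 ≤ n ∧ Odd n),
      1 / ((P n).card : ℝ) ≤ C * ((2 : ℝ) ^ k) ^ (ε / 2) := by
    refine le_trans (sum_le_sum_of_subset_of_nonneg ?_ fun n _ _ => by positivity) (h2 k)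
    intro n hn
    rw [mem_filter] at hn ⊢
    exact ⟨hn.1, by omega, hn.2.2⟩
  refine (mul_le_mul_of_nonneg_left h3 (by positivity)).trans ?_
  have hk1 : (1 : ℝ) ≤ (2 : ℝ) ^ k := one_le_pow₀ (by norm_num)
  rw [Real.mul_rpow (by norm_num) (by positivity)]
  have e : ((2 : ℝ) ^ k) ^ (ε / 4) * ((2 : ℝ) ^ k) ^ (ε / 2) ≤ ((2 : ℝ) ^ k) ^ ε := by
    rw [← Real.rpow_add (by positivity)]
    exact Real.rpow_le_rpow_of_exponent_le hk1 (by linarith)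
  calc (2 : ℝ) ^ (ε / 4) * ((2 : ℝ) ^ k) ^ (ε / 4) * (C * ((2 : ℝ) ^ k) ^ (ε / 2))
      = C * (2 : ℝ) ^ (ε / 4) * (((2 : ℝ) ^ k) ^ (ε / 4) * ((2 : ℝ) ^ k) ^ (ε / 2)) := by ring
    _ ≤ _ := mul_le_mul_of_nonneg_left e (by positivity)

/-- at least `n ^ (1/2 - ε)` values whose pair lies in `S` -/
def Rich (ε : ℝ) (n : ℕ) (S : Set ℕ) : Prop :=
  ∃ T : Finset ℕ, (n : ℝ) ^ (1 / 2 - ε) ≤ (T.card : ℝ) ∧
    ∀ N ∈ T, 2 ≤ N ∧ N ∈ S ∧ N - 2 ∈ S ∧ VV n N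

lemma Rich.mono {ε ε' : ℝ} {n : ℕ} {S : Set ℕ} (hn : 1 ≤ n) (h : ε' ≤ ε)
    (hM : Rich ε' n S) : Rich ε n S := by
  obtain ⟨T, h1, h2⟩ := hM
  refine ⟨T, le_trans ?_ h1, h2⟩
  exact Real.rpow_le_rpow_of_exponent_le (by exact_mod_cast hn) (by linarith)

/-- the bad events for the order `4 h` -/
theorem core2 [IsProbabilityMeasure μ] (hA : LimModel μ p κ A) (hp : Rough p) {ε : ℝ}
    (hε : 0 < ε) (hε1 : ε ≤ 1 / 8) : ∃ n₀ : ℕ, 7 ≤ n₀ ∧ ∃ m : ℕ → ℝ, ∃ C : ℝ, 0 < C ∧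
      (∀ n, n₀ ≤ n → Odd n → 2 * (n : ℝ) ^ (1 / 2 - ε) ≤ m n) ∧
      (∀ k : ℕ, ∑ n ∈ (Ico (2 ^ k) (2 ^ (k + 1))).filter (fun n => n₀ ≤ n ∧ Odd n),
        1 / m n ≤ C * ((2 : ℝ) ^ k) ^ ε) ∧
      ∀ h : ℕ, 4 * h ≤ κ → ∃ B : ℕ → Set Ω, ∃ D : ℝ, 0 < D ∧ (∀ n, MeasurableSet (B n)) ∧
        (∀ n, ¬ (n₀ ≤ n ∧ Odd n) → B n = ∅) ∧
        (∀ n, n₀ ≤ n → Odd n → μ.real (B n) ≤ D * (1 / m n) ^ h) ∧
        ∀ n, n₀ ≤ n → Odd n → ∀ ω, ω ∉ B n → Rich ε n (A ω) := by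
  classical
  obtain ⟨n₀, hn₀, T, C, hC, h1, h2⟩ := data hp ε hε (by linarith)
  refine ⟨n₀, hn₀, fun n => ∑ N ∈ T n, p2 p N, C, hC, fun n hn ho => (h1 n hn ho).1, h2, ?_⟩
  intro h hh
  have hA2 : LimModel μ (p2 p) (2 * h) (A2 A) := pair_model hA (by omega)
  have hq0 : ∀ i, 0 ≤ p2 p i := by
    intro i
    unfold p2
    split_ifs
    · exact mul_nonneg (hp.nonneg _) (hp.nonneg _)
    · exact le_rfl
  have hq1 : ∀ i, p2 p i ≤ 1 := by
    intro i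
    unfold p2
    split_ifs
    · exact mul_le_one₀ (hp.le_one _) (hp.nonneg _) (hp.le_one _)
    · norm_num
  have hone : ∀ n, n₀ ≤ n → Odd n → 1 ≤ ∑ N ∈ T n, p2 p N := by
    intro n hn ho
    refine le_trans ?_ (h1 n hn ho).1
    have : 1 ≤ (n : ℝ) ^ (1 / 2 - ε) := by
      refine Real.one_le_rpow ?_ (by linarith)
      exact_mod_cast (show 1 ≤ n by omega)
    linarith
  refine ⟨fun n => if n₀ ≤ n ∧ Odd n then
    {ω | ((((T n).filter fun i => i ∈ A2 A ω).card : ℕ) : ℝ) ≤ (∑ i ∈ T n, p2 p i) / 2} else ∅,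
    6 * ((2 * h).factorial : ℝ) * 4 ^ h, ?_, ?_, ?_, ?_, ?_⟩
  · have : (0 : ℝ) < ((2 * h).factorial : ℝ) := by exact_mod_cast Nat.factorial_pos _
    positivity
  · intro n
    simp only
    split_ifs with h3
    · exact (Q167.LF.model_few hA2 hq0 hq1 le_rfl (hone n h3.1 h3.2)).1
    · exact MeasurableSet.empty
  · intro n hn
    simp only
    rw [if_neg hn]
  · intro n hn ho
    simp only
    rw [if_pos ⟨hn, ho⟩]
    refine ((Q167.LF.model_few hA2 hq0 hq1 le_rfl (hone n hn ho)).2).trans (le_of_eq ?_)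
    rw [one_div, inv_pow, div_eq_mul_inv]
  · intro n hn ho ω hω
    simp only at hω
    rw [if_pos ⟨hn, ho⟩, Set.mem_ofPred_eq, not_le] at hω
    refine ⟨(T n).filter fun i => i ∈ A2 A ω, ?_, ?_⟩
    · have := (h1 n hn ho).1
      linarith
    · intro N hN
      rw [mem_filter] at hN
      exact ⟨hN.2.1.2, hN.2.2.1, hN.2.2.2, (h1 n hn ho).2 N hN.1⟩

end Pool.Agent.H198.LI4
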