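import Pool.Agent.H198.LI4.E

/-! # Orders four and eight: the almost sure statements -/

set_option autoImplicit false

namespace Pool.Agent.H198.LI4

open Finset MeasureTheory Filter Q167.WK
open scoped Topology

variable {Ω : Type*} [MeasurableSpace Ω] {μ : Measure Ω} {p : ℕ → ℝ} {κ : ℕ} {A : Ω → Set ℕ}

lemma dyadic' {a : ℕ → ℝ} (ha : ∀ n, 0 ≤ a n) {C ρ : ℝ} (hC : 0 ≤ C) (hρ0 : 0 ≤ ρ) (hρ : ρ < 1)
    {k₀ : ℕ} (h : ∀ k, k₀ ≤ k → ∑ n ∈ Ico (2 ^ k) (2 ^ (k + 1)), a n ≤ C * ρ ^ k) : Summable a := by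
  have h1 : Summable (fun n => if 2 ^ k₀ ≤ n then a n else 0) := by
    refine dyadic (C := C) (ρ := ρ) ?_ hρ0 hρ ?_
    · intro n
      split_ifs
      · exact ha n
      · exact le_rfl
    · intro k
      by_cases hk : k₀ ≤ k
      · refine le_trans (sum_le_sum fun n _ => ?_) (h k hk)
        split_ifs
        · exact le_rfl
        · exact ha n
      · rw [sum_eq_zero]
        · positivity
        · intro n hn
          rw [mem_Ico] at hn
          have : 2 ^ (k + 1) ≤ 2 ^ k₀ := Nat.pow_le_pow_right (by norm_num) (by omega)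
          rw [if_neg (by omega)]
  have h2 : Summable (fun n => a n - if 2 ^ k₀ ≤ n then a n else 0) := by
    refine summable_of_ne_finset_zero (s := range (2 ^ k₀)) fun n hn => ?_
    rw [mem_range, not_lt] at hn
    rw [if_pos hn, sub_self]
  exact (h2.add h1).congr fun n => by ring

lemma pow_rpow_lt {x : ℝ} (hx : x < 0) : (2 : ℝ) ^ x < 1 :=
  Real.rpow_lt_one_of_one_lt_of_neg (by norm_num) hx

/-- **Order eight**: all large odd numbers. -/
theorem all8 [IsProbabilityMeasure μ] (hA : LimModel μ p κ A) (hp : Rough p) (hκ : 8 ≤ κ) {ε : ℝ}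
    (hε : 0 < ε) : ∀ᵐ ω ∂μ, ∀ᶠ n : ℕ in atTop, Odd n → Rich ε n (A ω) := by
  classical
  set η := min ε (1 / 8) with hη
  have hη0 : 0 < η := by positivity
  have hη1 : η ≤ 1 / 8 := min_le_right _ _
  have hη2 : η ≤ ε := min_le_left _ _
  obtain ⟨n₀, hn₀, m, C, hC, h1, h2, h3⟩ := core2 hA hp hη0 hη1
  obtain ⟨B, D, hD, _, hB2, hB3, hB4⟩ := h3 2 (by omega)
  have hs : Summable (fun n => μ.real (B n)) := by
    refine dyadic (C := D * C) (ρ := (2 : ℝ) ^ (-(1 / 4) : ℝ)) (fun n => measureReal_nonneg)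
      (by positivity) (pow_rpow_lt (by norm_num)) fun k => ?_
    have e1 : ∑ n ∈ Ico (2 ^ k) (2 ^ (k + 1)), μ.real (B n) =
        ∑ n ∈ (Ico (2 ^ k) (2 ^ (k + 1))).filter (fun n => n₀ ≤ n ∧ Odd n), μ.real (B n) := by
      rw [sum_filter]
      refine sum_congr rfl fun n _ => ?_
      split_ifs with h4
      · rfl
      · rw [hB2 n h4, measureReal_empty]
    have hk1 : (1 : ℝ) ≤ (2 : ℝ) ^ k := one_le_pow₀ (by norm_num)
    rw [e1]
    have e2 : ∀ n ∈ (Ico (2 ^ k) (2 ^ (k + 1))).filter (fun n => n₀ ≤ n ∧ Odd n),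
        μ.real (B n) ≤ D * ((2 : ℝ) ^ k) ^ (-(1 / 2 - η)) * (1 / m n) := by
      intro n hn
      rw [mem_filter, mem_Ico] at hn
      obtain ⟨⟨g1, g2⟩, g3, g4⟩ := hn
      have hn0 : (0 : ℝ) < n := by exact_mod_cast (show 0 < n by omega)
      have g5 := h1 n g3 g4
      have g6 : 0 < (n : ℝ) ^ (1 / 2 - η) := by positivity
      have g7 : 0 < m n := by linarith
      have g8 : 1 / m n ≤ ((2 : ℝ) ^ k) ^ (-(1 / 2 - η)) := by
        have g9 : ((2 : ℝ) ^ k) ^ (1 / 2 - η) ≤ (n : ℝ) ^ (1 / 2 - η) :=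
          Real.rpow_le_rpow (by positivity) (by exact_mod_cast g1) (by linarith)
        rw [Real.rpow_neg (by positivity), ← one_div]
        exact one_div_le_one_div_of_le (by positivity) (by linarith)
      refine (hB3 n g3 g4).trans ?_
      rw [sq, ← mul_assoc]
      refine mul_le_mul_of_nonneg_right (mul_le_mul_of_nonneg_left g8 hD.le) (by positivity)
    refine (sum_le_sum e2).trans ?_
    rw [← mul_sum]
    refine (mul_le_mul_of_nonneg_left (h2 k) (by positivity)).trans ?_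
    rw [← two_rpow]
    have e3 : ((2 : ℝ) ^ k) ^ (-(1 / 2 - η)) * ((2 : ℝ) ^ k) ^ η ≤ ((2 : ℝ) ^ k) ^ (-(1 / 4) : ℝ) := by
      rw [← Real.rpow_add (by positivity)]
      exact Real.rpow_le_rpow_of_exponent_le hk1 (by linarith)
    calc D * ((2 : ℝ) ^ k) ^ (-(1 / 2 - η)) * (C * ((2 : ℝ) ^ k) ^ η)
        = D * C * (((2 : ℝ) ^ k) ^ (-(1 / 2 - η)) * ((2 : ℝ) ^ k) ^ η) := by ring
      _ ≤ _ := mul_le_mul_of_nonneg_left e3 (by positivity)
  have hsum : ∑' n, μ (B n) ≠ ⊤ := by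
    have e : ∀ n, μ (B n) = ENNReal.ofReal (μ.real (B n)) := fun n => by
      rw [measureReal_def, ENNReal.ofReal_toReal (measure_ne_top μ _)]
    simp only [e]
    exact hs.tsum_ofReal_ne_top
  filter_upwards [ae_eventually_notMem hsum] with ω hω
  filter_upwards [hω, eventually_ge_atTop n₀] with n h4 h5 ho
  exact (hB4 n h5 ho ω h4).mono (by omega) hη2

open Classical in
/-- counting the events that occur -/
lemma count_lemma [IsProbabilityMeasure μ] {B : ℕ → Set Ω} (hB : ∀ n, MeasurableSet (B n))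
    (hB0 : B 0 = ∅) {s : ℝ} (hs : 0 < s) (hsum : Summable (fun n : ℕ => μ.real (B n) * (n : ℝ) ^ (-s)))
    {t : ℝ} (hst : s < t) (K : ℕ) : ∀ᵐ ω ∂μ, ∀ᶠ X : ℕ in atTop,
      (((range (X + 1)).filter fun n => ω ∈ B n).card : ℝ) + K ≤ (X : ℝ) ^ t := by
  set c : ℕ → ℝ := fun n => (n : ℝ) ^ (-s) with hc
  have hc0 : ∀ n, 0 ≤ c n := fun n => Real.rpow_nonneg (Nat.cast_nonneg n) _
  set f : Ω → ENNReal := fun ω => ∑' n, (B n).indicator (fun _ => ENNReal.ofReal (c n)) ω with hf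
  have hint : ∫⁻ ω, f ω ∂μ ≠ ⊤ := by
    rw [hf, lintegral_tsum fun n => (measurable_const.indicator (hB n)).aemeasurable]
    have hb : ∀ n, ∫⁻ ω, (B n).indicator (fun _ => ENNReal.ofReal (c n)) ω ∂μ ≤
        ENNReal.ofReal (μ.real (B n) * (n : ℝ) ^ (-s)) := by
      intro n
      rw [lintegral_indicator_const (hB n), ← ENNReal.ofReal_toReal (measure_ne_top μ (B n)),
        ← ENNReal.ofReal_mul (hc0 n)]
      apply ENNReal.ofReal_le_ofReal
      rw [mul_comm, measureReal_def]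
    exact ne_top_of_le_ne_top hsum.tsum_ofReal_ne_top (ENNReal.tsum_le_tsum hb)
  have hfm : Measurable f := by
    rw [hf]
    exact Measurable.tsum fun n => measurable_const.indicator (hB n)
  filter_upwards [ae_lt_top hfm hint] with ω hω
  set Y : ℝ := (f ω).toReal with hY
  have hY0 : 0 ≤ Y := ENNReal.toReal_nonneg
  have t1 : Tendsto (fun n : ℕ => (n : ℝ) ^ (t - s)) atTop atTop :=
    (tendsto_rpow_atTop (by linarith)).comp tendsto_natCast_atTop_atTop
  filter_upwards [t1.eventually_ge_atTop (Y + K), eventually_ge_atTop 1] with X hX hX1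
  have hX0 : (0 : ℝ) < X := by exact_mod_cast hX1
  have hX1' : (1 : ℝ) ≤ X := by exact_mod_cast hX1
  set S : Finset ℕ := (range (X + 1)).filter fun n => ω ∈ B n with hS
  have hcount : (S.card : ℝ) * (X : ℝ) ^ (-s) ≤ Y := by
    have h4 : ∑ n ∈ S, ENNReal.ofReal (c n) ≤ f ω := by
      calc ∑ n ∈ S, ENNReal.ofReal (c n)
          = ∑ n ∈ S, (B n).indicator (fun _ => ENNReal.ofReal (c n)) ω := by
            refine sum_congr rfl fun n hn => ?_
            rw [hS, mem_filter] at hn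
            rw [Set.indicator_of_mem hn.2]
        _ ≤ f ω := ENNReal.sum_le_tsum S
    have h5 : ∑ n ∈ S, c n ≤ Y := by
      have h6 := ENNReal.toReal_mono hω.ne h4
      rw [ENNReal.toReal_sum (fun n _ => ENNReal.ofReal_ne_top)] at h6
      refine le_trans (le_of_eq ?_) h6
      exact sum_congr rfl fun n _ => (ENNReal.toReal_ofReal (hc0 n)).symm
    refine le_trans ?_ h5
    rw [← nsmul_eq_mul]
    apply card_nsmul_le_sum
    intro n hn
    rw [hS, mem_filter, mem_range] at hn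
    have h6 : 1 ≤ n := by
      by_contra h7
      have h8 : n = 0 := by omega
      rw [h8, hB0] at hn
      exact hn.2
    have h7 : (0 : ℝ) < n := by exact_mod_cast h6
    have h8 : (n : ℝ) ≤ X := by exact_mod_cast (by omega : n ≤ X)
    simp only [hc]
    exact Real.rpow_le_rpow_of_nonpos h7 h8 (by linarith)
  have h9 : (S.card : ℝ) ≤ Y * (X : ℝ) ^ s := by
    have h10 : 0 < (X : ℝ) ^ s := Real.rpow_pos_of_pos hX0 _
    rw [Real.rpow_neg hX0.le] at hcount
    rwa [← div_eq_mul_inv, div_le_iff₀ h10] at hcount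
  have h11 : (X : ℝ) ^ t = (X : ℝ) ^ s * (X : ℝ) ^ (t - s) := by
    rw [← Real.rpow_add hX0]
    congr 1
    ring
  have h12 : 1 ≤ (X : ℝ) ^ s := Real.one_le_rpow hX1' hs.le
  rw [h11]
  have h13 : (0 : ℝ) ≤ K := Nat.cast_nonneg _
  nlinarith

open Classical in
/-- **Order four**: few exceptions. -/
theorem few4 [IsProbabilityMeasure μ] (hA : LimModel μ p κ A) (hp : Rough p) (hκ : 4 ≤ κ) {ε : ℝ}
    (hε : 0 < ε) : ∀ᵐ ω ∂μ, ∀ᶠ X : ℕ in atTop,
      (((range (X + 1)).filter fun n => Odd n ∧ ¬ Rich ε n (A ω)).card : ℝ) ≤ (X : ℝ) ^ ε := by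
  set η := min (ε / 4) (1 / 8) with hη
  have hη0 : 0 < η := by positivity
  have hη1 : η ≤ 1 / 8 := min_le_right _ _
  have hη2 : η ≤ ε / 4 := min_le_left _ _
  obtain ⟨n₀, hn₀, m, C, hC, h1, h2, h3⟩ := core2 hA hp hη0 hη1
  obtain ⟨B, D, hD, hB1, hB2, hB3, hB4⟩ := h3 1 (by omega)
  have hs : Summable (fun n : ℕ => μ.real (B n) * (n : ℝ) ^ (-(2 * η))) := by
    refine dyadic (C := D * C) (ρ := (2 : ℝ) ^ (-η)) (fun n => mul_nonneg measureReal_nonneg
      (Real.rpow_nonneg (Nat.cast_nonneg _) _)) (by positivity) (pow_rpow_lt (by linarith)) fun k => ?_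
    have e1 : ∑ n ∈ Ico (2 ^ k) (2 ^ (k + 1)), μ.real (B n) * (n : ℝ) ^ (-(2 * η)) =
        ∑ n ∈ (Ico (2 ^ k) (2 ^ (k + 1))).filter (fun n => n₀ ≤ n ∧ Odd n),
          μ.real (B n) * (n : ℝ) ^ (-(2 * η)) := by
      rw [sum_filter]
      refine sum_congr rfl fun n _ => ?_
      split_ifs with h4
      · rfl
      · rw [hB2 n h4, measureReal_empty, zero_mul]
    rw [e1]
    have e2 : ∀ n ∈ (Ico (2 ^ k) (2 ^ (k + 1))).filter (fun n => n₀ ≤ n ∧ Odd n),
        μ.real (B n) * (n : ℝ) ^ (-(2 * η)) ≤ D * ((2 : ℝ) ^ k) ^ (-(2 * η)) * (1 / m n) := by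
      intro n hn
      rw [mem_filter, mem_Ico] at hn
      obtain ⟨⟨g1, g2⟩, g3, g4⟩ := hn
      have hn0 : (0 : ℝ) < n := by exact_mod_cast (show 0 < n by omega)
      have g5 := h1 n g3 g4
      have g6 : 0 < (n : ℝ) ^ (1 / 2 - η) := by positivity
      have g7 : 0 < m n := by linarith
      have g8 : (n : ℝ) ^ (-(2 * η)) ≤ ((2 : ℝ) ^ k) ^ (-(2 * η)) :=
        Real.rpow_le_rpow_of_nonpos (by positivity) (by exact_mod_cast g1) (by linarith)
      have g9 := hB3 n g3 g4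
      rw [pow_one] at g9
      calc μ.real (B n) * (n : ℝ) ^ (-(2 * η)) ≤ (D * (1 / m n)) * ((2 : ℝ) ^ k) ^ (-(2 * η)) :=
            mul_le_mul g9 g8 (Real.rpow_nonneg hn0.le _) (by positivity)
        _ = _ := by ring
    refine (sum_le_sum e2).trans ?_
    rw [← mul_sum]
    refine (mul_le_mul_of_nonneg_left (h2 k) (by positivity)).trans (le_of_eq ?_)
    rw [← two_rpow]
    have e3 : ((2 : ℝ) ^ k) ^ (-(2 * η)) * ((2 : ℝ) ^ k) ^ η = ((2 : ℝ) ^ k) ^ (-η) := by
      rw [← Real.rpow_add (by positivity)]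
      congr 1
      ring
    rw [← e3]
    ring
  have hcl := count_lemma hB1 (hB2 0 (fun h => by omega)) (s := 2 * η) (by linarith) hs
    (t := ε) (by linarith) n₀
  filter_upwards [hcl] with ω hω
  filter_upwards [hω] with X hX
  refine le_trans ?_ hX
  have hcard : ((range (X + 1)).filter fun n => Odd n ∧ ¬ Rich ε n (A ω)).card ≤
      ((range (X + 1)).filter fun n => ω ∈ B n).card + n₀ := by
    refine (card_le_card (t := ((range (X + 1)).filter fun n => ω ∈ B n) ∪ range n₀) ?_).trans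
      ((card_union_le _ _).trans (by rw [card_range]))
    intro n hn
    rw [mem_filter] at hn
    rw [mem_union, mem_range, mem_filter]
    by_cases h4 : n₀ ≤ n
    · left
      refine ⟨hn.1, ?_⟩
      by_contra h5
      exact hn.2.2 ((hB4 n h4 hn.2.1 ω h5).mono (by omega) (by linarith))
    · right
      omega
  exact_mod_cast hcard

open Classical in
/-- **Order four**: sparse sequences. -/
theorem sparse4 [IsProbabilityMeasure μ] (hA : LimModel μ p κ A) (hp : Rough p) (hκ : 4 ≤ κ)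
    {S : Set ℕ} {δ : ℝ} (hδ : 0 < δ)
    (hS : ∀ᶠ X : ℕ in atTop, (((range (X + 1)).filter fun n => n ∈ S).card : ℝ) ≤
      (X : ℝ) ^ (1 / 2 - δ)) {ε : ℝ} (hε : 0 < ε) :
    ∀ᵐ ω ∂μ, ∀ᶠ n : ℕ in atTop, n ∈ S → Odd n → Rich ε n (A ω) := by
  set η := min (min ε (1 / 8)) (δ / 2) with hη
  have hη0 : 0 < η := by positivity
  have hη1 : η ≤ 1 / 8 := (min_le_left _ _).trans (min_le_right _ _)
  have hη2 : η ≤ ε := (min_le_left _ _).trans (min_le_left _ _)
  have hη3 : η ≤ δ / 2 := min_le_right _ _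
  obtain ⟨n₀, hn₀, m, C, hC, h1, _, h3⟩ := core2 hA hp hη0 hη1
  obtain ⟨B, D, hD, _, hB2, hB3, hB4⟩ := h3 1 (by omega)
  obtain ⟨X₀, hX₀⟩ := eventually_atTop.1 hS
  have hs : Summable (fun n : ℕ => if n ∈ S then μ.real (B n) else 0) := by
    refine dyadic' (C := D * (2 : ℝ) ^ (1 / 2 : ℝ)) (ρ := (2 : ℝ) ^ (-(δ / 2))) (k₀ := X₀)
      (fun n => ?_) (by positivity) (by positivity) (pow_rpow_lt (by linarith)) fun k hk => ?_
    · split_ifs
      · exact measureReal_nonneg
      · exact le_rfl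
    · have hk1 : (1 : ℝ) ≤ (2 : ℝ) ^ k := one_le_pow₀ (by norm_num)
      have e1 : ∀ n ∈ Ico (2 ^ k) (2 ^ (k + 1)), (if n ∈ S then μ.real (B n) else 0) ≤
          (if n ∈ S then D * ((2 : ℝ) ^ k) ^ (-(1 / 2 - η)) else 0) := by
        intro n hn
        rw [mem_Ico] at hn
        split_ifs with h4
        · by_cases h5 : n₀ ≤ n ∧ Odd n
          · have hn0 : (0 : ℝ) < n := by exact_mod_cast (show 0 < n by omega)
            have g5 := h1 n h5.1 h5.2
            have g6 : 0 < (n : ℝ) ^ (1 / 2 - η) := by positivity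
            have g8 : 1 / m n ≤ ((2 : ℝ) ^ k) ^ (-(1 / 2 - η)) := by
              have g9 : ((2 : ℝ) ^ k) ^ (1 / 2 - η) ≤ (n : ℝ) ^ (1 / 2 - η) :=
                Real.rpow_le_rpow (by positivity) (by exact_mod_cast hn.1) (by linarith)
              rw [Real.rpow_neg (by positivity), ← one_div]
              exact one_div_le_one_div_of_le (by positivity) (by linarith)
            have g10 := hB3 n h5.1 h5.2
            rw [pow_one] at g10
            exact g10.trans (mul_le_mul_of_nonneg_left g8 hD.le)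
          · rw [hB2 n h5, measureReal_empty]
            positivity
        · exact le_rfl
      refine (sum_le_sum e1).trans ?_
      rw [← sum_filter, sum_const, nsmul_eq_mul]
      have hle : X₀ ≤ 2 ^ (k + 1) := by
        have h5 : k + 1 < 2 ^ (k + 1) := Nat.lt_two_pow_self
        omega
      have e2 : ((((Ico (2 ^ k) (2 ^ (k + 1))).filter fun n => n ∈ S).card : ℕ) : ℝ) ≤
          ((2 : ℝ) ^ (k + 1)) ^ (1 / 2 - δ) := by
        have e3 := hX₀ (2 ^ (k + 1)) hle
        push_cast at e3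
        refine le_trans ?_ e3
        have e4 : (Ico (2 ^ k) (2 ^ (k + 1))).filter (fun n => n ∈ S) ⊆
            (range (2 ^ (k + 1) + 1)).filter fun n => n ∈ S := by
          intro n hn
          rw [mem_filter, mem_Ico] at hn
          rw [mem_filter, mem_range]
          exact ⟨by omega, hn.2⟩
        exact_mod_cast card_le_card e4
      have e5 : ((2 : ℝ) ^ (k + 1)) ^ (1 / 2 - δ) ≤ (2 : ℝ) ^ (1 / 2 : ℝ) * ((2 : ℝ) ^ k) ^ (1 / 2 - δ) := by
        rw [pow_succ, mul_comm ((2 : ℝ) ^ k) 2, Real.mul_rpow (by norm_num) (by positivity)]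
        refine mul_le_mul_of_nonneg_right ?_ (by positivity)
        exact Real.rpow_le_rpow_of_exponent_le (by norm_num) (by linarith)
      have e6 : ((2 : ℝ) ^ k) ^ (1 / 2 - δ) * ((2 : ℝ) ^ k) ^ (-(1 / 2 - η)) ≤
          ((2 : ℝ) ^ (-(δ / 2))) ^ k := by
        rw [← two_rpow, ← Real.rpow_add (by positivity)]
        exact Real.rpow_le_rpow_of_exponent_le hk1 (by linarith)
      calc ((((Ico (2 ^ k) (2 ^ (k + 1))).filter fun n => n ∈ S).card : ℕ) : ℝ) *
            (D * ((2 : ℝ) ^ k) ^ (-(1 / 2 - η)))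
          ≤ ((2 : ℝ) ^ (1 / 2 : ℝ) * ((2 : ℝ) ^ k) ^ (1 / 2 - δ)) *
            (D * ((2 : ℝ) ^ k) ^ (-(1 / 2 - η))) :=
            mul_le_mul_of_nonneg_right (e2.trans e5) (by positivity)
        _ = D * (2 : ℝ) ^ (1 / 2 : ℝ) *
            (((2 : ℝ) ^ k) ^ (1 / 2 - δ) * ((2 : ℝ) ^ k) ^ (-(1 / 2 - η))) := by ring
        _ ≤ _ := mul_le_mul_of_nonneg_left e6 (by positivity)
  have hsum : ∑' n, μ (if n ∈ S then B n else ∅) ≠ ⊤ := by
    have e : ∀ n, μ (if n ∈ S then B n else ∅) =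
        ENNReal.ofReal (if n ∈ S then μ.real (B n) else 0) := fun n => by
      split_ifs
      · rw [measureReal_def, ENNReal.ofReal_toReal (measure_ne_top μ _)]
      · rw [measure_empty, ENNReal.ofReal_zero]
    simp only [e]
    exact hs.tsum_ofReal_ne_top
  filter_upwards [ae_eventually_notMem hsum] with ω hω
  filter_upwards [hω, eventually_ge_atTop n₀] with n h4 h5 hnS ho
  rw [if_pos hnS] at h4
  exact (hB4 n h5 ho ω h4).mono (by omega) hη2

end Pool.Agent.H198.LI4
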