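import Pool.Agent.H198.LI4.B
import Pool.Agent.H198.LI4.F

/-! # The models of the primes; no representation under independence of order three -/

set_option autoImplicit false

namespace Pool.Agent.H198.LI4

open Finset MeasureTheory Filter Q167.WK
open scoped Topology

open Classical in
/-- probability `min(1, c / log N)` for the `N` without prime factors up to `z`, else `0` -/
noncomputable def sieved (z : ℕ) (c : ℝ) (N : ℕ) : ℝ :=
  if ∀ q : ℕ, q.Prime → q ∣ N → z < q then min 1 (c / Real.log N) else 0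

lemma sieved_rough {z : ℕ} {c : ℝ} (hc : 0 < c) : Rough (sieved z c) := by
  classical
  refine ⟨?_, ?_, ?_⟩
  · intro N
    unfold sieved
    split_ifs
    · refine le_min (by norm_num) (div_nonneg hc.le ?_)
      exact Real.log_natCast_nonneg N
    · exact le_rfl
  · intro N
    unfold sieved
    split_ifs
    · exact min_le_left _ _
    · norm_num
  · intro δ hδ ε hε
    have t2 : Tendsto (fun n : ℕ => (n : ℝ) ^ δ) atTop atTop :=
      (tendsto_rpow_atTop hδ).comp tendsto_natCast_atTop_atTop
    have h1 := (isLittleO_log_rpow_atTop hε).bound hc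
    have h2 := tendsto_natCast_atTop_atTop (R := ℝ).eventually h1
    filter_upwards [t2.eventually_ge_atTop (z : ℝ), h2, eventually_ge_atTop 2] with N g1 g2 g3 hR
    have hN1 : (1 : ℝ) < N := by exact_mod_cast g3
    have hlog : 0 < Real.log N := Real.log_pos hN1
    have hcond : ∀ q : ℕ, q.Prime → q ∣ N → z < q := by
      intro q hq hqN
      have h3 := hR q hq hqN
      exact_mod_cast g1.trans_lt h3
    unfold sieved
    rw [if_pos hcond]
    refine le_min ?_ ?_
    · exact Real.rpow_le_one_of_one_le_of_nonpos hN1.le (by linarith)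
    · rw [Real.norm_of_nonneg hlog.le, Real.norm_of_nonneg (by positivity)] at g2
      rw [le_div_iff₀ hlog, Real.rpow_neg (by linarith)]
      have h4 : 0 < (N : ℝ) ^ ε := by positivity
      rw [inv_mul_le_iff₀ h4]
      linarith

lemma sieved_three {z : ℕ} (hz : 3 ≤ z) (c : ℝ) {N : ℕ} (h : 3 ∣ N) : sieved z c N = 0 := by
  unfold sieved
  rw [if_neg]
  intro h1
  have := h1 3 Nat.prime_three h
  omega

lemma sieved_upper (z : ℕ) {c : ℝ} (hc : 0 < c) (N : ℕ) : sieved z c N ≤ c / Real.log N := by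
  unfold sieved
  split_ifs
  · exact min_le_right _ _
  · exact div_nonneg hc.le (Real.log_natCast_nonneg N)

lemma VV.le {n N : ℕ} (h : VV n N) : n ≤ N := by
  obtain ⟨x, y, z, w, h1, h2⟩ := h
  have : (n : ℤ) ≤ N := by
    rw [h1, h2]
    nlinarith [sq_nonneg x, sq_nonneg y, sq_nonneg z, sq_nonneg w]
  exact_mod_cast this

/-- finitely many pairs: no representations for large `n` -/
lemma none_of_finite {A : Set ℕ} (h : {N : ℕ | 2 ≤ N ∧ N ∈ A ∧ N - 2 ∈ A}.Finite) :
    ∀ᶠ n : ℕ in atTop, ∀ N, VV n N → ¬ (N ∈ A ∧ N - 2 ∈ A) := by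
  obtain ⟨M, hM⟩ := h.bddAbove
  filter_upwards [eventually_ge_atTop (M + 2)] with n hn N hN hNA
  have h1 := hN.le
  have h2 : N ≤ M := hM (by
    rw [Set.mem_ofPred_eq]
    exact ⟨by omega, hNA.1, hNA.2⟩)
  omega

lemma ncard_eq (X : ℕ) (P : ℕ → Prop) [DecidablePred P] :
    {n : ℕ | n ≤ X ∧ P n}.ncard = ((Finset.range (X + 1)).filter P).card := by
  rw [← Set.ncard_coe_finset]
  congr 1
  ext n
  rw [Finset.mem_coe, Finset.mem_filter, Finset.mem_range]
  exact ⟨fun h => ⟨by have := h.1; omega, h.2⟩, fun h => ⟨by have := h.1; omega, h.2⟩⟩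

end Pool.Agent.H198.LI4
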